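import Mathlib

namespace Pool.Agent.Lib.MP_a77f20_co

/-- The set `W` of `m`-Dyck words of length `n`. -/
def dyckWords (m n : ℕ) : Set (Fin n → ℤ) :=
  {γ | (∀ i : Fin n, (i : ℕ) = 0 → γ i = 0) ∧ (∀ i, 0 ≤ γ i) ∧
    ∀ i j : Fin n, (j : ℕ) = i + 1 → γ j ≤ γ i + m}

/-- The subset `T` of the words with `γ 1 = 0`. -/
def dyckT (m n : ℕ) : Set (Fin n → ℤ) :=
  {γ ∈ dyckWords m n | ∀ i : Fin n, (i : ℕ) = 1 → γ i = 0}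

def sc (m : ℕ) (x : ℤ) : ℤ :=
  if 1 ≤ x ∧ x ≤ m + 1 then m + 1 - x else if -(m : ℤ) ≤ x ∧ x ≤ 0 then m + x else 0

def area {n : ℕ} (γ : Fin n → ℤ) : ℤ := ∑ i, γ i

def dinv (m : ℕ) {n : ℕ} (γ : Fin n → ℤ) : ℤ :=
  ∑ i, ∑ j, if i < j then sc m (γ i - γ j) else 0

/-- The generating function `C_S(q, t)`. -/
noncomputable def gen (m : ℕ) {n : ℕ} (S : Set (Fin n → ℤ)) (q t : MvPolynomial (Fin 2) ℤ) :
    MvPolynomial (Fin 2) ℤ :=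
  ∑ᶠ γ ∈ S, q ^ (area γ).toNat * t ^ (dinv m γ).toNat

end Pool.Agent.Lib.MP_a77f20_co
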