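import Mathlib

namespace Pool.Agent.Lib.MP_a77f20_co

open AddMonoidAlgebra Finset

abbrev V (n : ℕ) := Fin n → ℤ
abbrev L (R : Type*) [CommRing R] (n : ℕ) := AddMonoidAlgebra R (V n)

variable {R : Type*} [CommRing R] {n : ℕ}

noncomputable def mon (μ : V n) : L R n := single μ 1
def e (i : Fin n) : V n := Pi.single i 1
noncomputable def X (i : Fin n) : L R n := mon (e i)
noncomputable def Y (i : Fin n) : L R n := mon (-e i)
noncomputable def C : R →+* L R n := algebraMap R (L R n)

lemma e_apply (i k : Fin n) : e i k = if k = i then 1 else 0 := by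
  simp [e, Pi.single_apply]

lemma mon_add (μ ν : V n) : (mon (μ + ν) : L R n) = mon μ * mon ν := by
  simp [mon, single_mul_single]

@[simp] lemma mon_zero : (mon 0 : L R n) = 1 := rfl

lemma X_mul_Y (i : Fin n) : (X i : L R n) * Y i = 1 := by
  rw [X, Y, ← mon_add]; simp

lemma smul_eq (r : R) (f : L R n) : r • f = C r * f := Algebra.smul_def r f

lemma lin_ext {M : Type*} [AddCommGroup M] [Module R M] {T U : L R n →ₗ[R] M}
    (h : ∀ μ, T (mon μ) = U (mon μ)) : T = U :=
  (AddMonoidAlgebra.basis (V n) R).ext h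

noncomputable abbrev supp (R : Type*) [CommRing R] {n : ℕ} (s : Set (V n)) : Submodule R (L R n) :=
  supported R R s

lemma mon_mem {s : Set (V n)} {μ : V n} (h : μ ∈ s) : (mon μ : L R n) ∈ supp R s := by
  rw [supp, supported_eq_span_single]
  exact Submodule.subset_span ⟨μ, h, rfl⟩

lemma supp_ind {s : Set (V n)} {P : L R n → Prop} (h0 : P 0)
    (hadd : ∀ f g, P f → P g → P (f + g)) (hsm : ∀ (r : R) f, P f → P (r • f))
    (hm : ∀ μ ∈ s, P (mon μ)) {f : L R n} (hf : f ∈ supp R s) : P f := by
  rw [supp, supported_eq_span_single] at hf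
  induction hf using Submodule.span_induction with
  | mem x hx => obtain ⟨μ, hμ, rfl⟩ := hx; exact hm μ hμ
  | zero => exact h0
  | add x y _ _ hx hy => exact hadd x y hx hy
  | smul r x _ hx => exact hsm r x hx

lemma map_supp {M : Type*} [AddCommGroup M] [Module R M] (T : L R n →ₗ[R] M) {s : Set (V n)}
    {N : Submodule R M} (h : ∀ μ ∈ s, T (mon μ) ∈ N) {f : L R n} (hf : f ∈ supp R s) :
    T f ∈ N := by
  refine supp_ind (P := fun f => T f ∈ N) (by simp) ?_ ?_ h hf
  · intro f g hf hg; rw [map_add]; exact N.add_mem hf hg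
  · intro r f hf; rw [map_smul]; exact N.smul_mem r hf

lemma mem_supp_univ (f : L R n) : f ∈ supp R (Set.univ : Set (V n)) := by
  rw [supp, mem_supported]; exact Set.subset_univ _

lemma mul_mem_supp {s t w : Set (V n)} (h : ∀ μ ∈ s, ∀ ν ∈ t, μ + ν ∈ w) {f g : L R n}
    (hf : f ∈ supp R s) (hg : g ∈ supp R t) : f * g ∈ supp R w := by
  refine map_supp (LinearMap.mulRight R g) (fun μ hμ => ?_) hf
  refine map_supp (LinearMap.mulLeft R (mon μ)) (fun ν hν => ?_) hg
  simpa [← mon_add] using mon_mem (h μ hμ ν hν)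

lemma C_mul_mem {N : Submodule R (L R n)} (r : R) {f : L R n} (hf : f ∈ N) : C r * f ∈ N := by
  rw [← smul_eq]; exact N.smul_mem r hf

def sw (i j : Fin n) (μ : V n) : V n := fun k => μ (Equiv.swap i j k)

@[simp] lemma sw_left (i j : Fin n) (μ : V n) : sw i j μ i = μ j := by simp [sw]
@[simp] lemma sw_right (i j : Fin n) (μ : V n) : sw i j μ j = μ i := by simp [sw]
lemma sw_other {i j k : Fin n} (hi : k ≠ i) (hj : k ≠ j) (μ : V n) : sw i j μ k = μ k := by
  simp [sw, Equiv.swap_apply_of_ne_of_ne hi hj]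
lemma sw_apply (i j k : Fin n) (μ : V n) :
    sw i j μ k = if k = i then μ j else if k = j then μ i else μ k := by
  split_ifs with h1 h2
  · subst h1; simp
  · subst h2; simp
  · exact sw_other h1 h2 μ
@[simp] lemma sw_sw (i j : Fin n) (μ : V n) : sw i j (sw i j μ) = μ := by
  funext k; simp [sw]
lemma sw_eq_self {i j : Fin n} {μ : V n} (h : μ i = μ j) : sw i j μ = μ := by
  funext k; rw [sw_apply]; split_ifs with h1 h2
  · rw [h1, h]
  · rw [h2, h]
  · rfl

def swH (i j : Fin n) : V n →+ V n where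
  toFun := sw i j
  map_zero' := rfl
  map_add' _ _ := rfl

noncomputable def S (i j : Fin n) : L R n →ₐ[R] L R n := mapDomainAlgHom R R (swH i j)

@[simp] lemma S_mon (i j : Fin n) (μ : V n) : S i j (mon μ : L R n) = mon (sw i j μ) := by
  simp [S, mon, swH]

@[simp] lemma S_C (i j : Fin n) (r : R) : S i j (C r : L R n) = C r := (S i j).commutes r

lemma sw_e (i j k : Fin n) : sw i j (e k) = e (Equiv.swap i j k) := by
  funext l
  simp only [sw, e_apply, Equiv.swap_apply_eq_iff]

lemma sw_neg (i j : Fin n) (μ : V n) : sw i j (-μ) = -sw i j μ := rfl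
lemma sw_add (i j : Fin n) (μ ν : V n) : sw i j (μ + ν) = sw i j μ + sw i j ν := rfl

lemma S_X (i j k : Fin n) : S i j (X k : L R n) = X (Equiv.swap i j k) := by
  rw [X, S_mon, sw_e, X]
lemma S_Y (i j k : Fin n) : S i j (Y k : L R n) = Y (Equiv.swap i j k) := by
  rw [Y, S_mon, sw_neg, sw_e, Y]

lemma alg_ext {T U : L R n →ₐ[R] L R n} (h : ∀ μ, T (mon μ) = U (mon μ)) (f : L R n) :
    T f = U f :=
  LinearMap.congr_fun (lin_ext (T := T.toLinearMap) (U := U.toLinearMap) h) f

@[simp] lemma S_S (i j : Fin n) (f : L R n) : S i j (S i j f) = f :=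
  alg_ext (T := (S i j).comp (S i j)) (U := AlgHom.id R _) (fun μ => by simp) f

noncomputable def Dm (i j : Fin n) (μ : V n) : L R n :=
  ∑ k ∈ range (μ i - μ j).toNat, mon (μ + (k : ℤ) • (e j - e i)) -
    ∑ k ∈ range (μ j - μ i).toNat, mon (μ + (-((k : ℤ) + 1)) • (e j - e i))

noncomputable def D (i j : Fin n) : L R n →ₗ[R] L R n :=
  (AddMonoidAlgebra.basis (V n) R).constr R (Dm i j)

lemma D_mon (i j : Fin n) (μ : V n) : D i j (mon μ : L R n) = Dm i j μ :=
  (AddMonoidAlgebra.basis (V n) R).constr_basis R (Dm i j) μ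

lemma sw_eq_add {i j : Fin n} (hij : i ≠ j) (μ : V n) :
    sw i j μ = μ + (μ i - μ j) • (e j - e i) := by
  funext k
  simp only [sw_apply, Pi.add_apply, Pi.smul_apply, Pi.sub_apply, e_apply, smul_eq_mul]
  split_ifs with h1 h2 h3
  · exact absurd (h1.symm.trans h2) hij
  · subst h1; ring
  · subst h3; ring
  · ring

lemma chD {i j : Fin n} (hij : i ≠ j) (f : L R n) :
    (X i - X j) * D i j f = X i * (f - S i j f) := by
  have key : LinearMap.mulLeft R (X i - X j) ∘ₗ D i j =
      LinearMap.mulLeft R (X i : L R n) ∘ₗ (LinearMap.id - (S i j).toLinearMap) := by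
    refine lin_ext fun μ => ?_
    simp only [LinearMap.comp_apply, LinearMap.mulLeft_apply, LinearMap.sub_apply,
      LinearMap.id_apply, AlgHom.toLinearMap_apply, S_mon, D_mon, Dm]
    set m : ℤ → L R n := fun k => mon (μ + k • (e j - e i)) with hm
    have h1 : ∀ k, (X i - X j) * m k = X i * (m k - m (k + 1)) := by
      intro k
      have : (X j : L R n) * m k = X i * m (k + 1) := by
        simp only [hm, X, ← mon_add]
        congr 1
        rw [add_smul, one_smul]; abel
      linear_combination -this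
    have h2 : ∀ N : ℕ, (X i - X j) * ∑ k ∈ range N, m k = X i * (m 0 - m N) := by
      intro N
      induction N with
      | zero => simp
      | succ N ih => rw [sum_range_succ, mul_add, ih, h1]; push_cast; ring
    have h3 : ∀ N : ℕ, (X i - X j) * ∑ k ∈ range N, m (-((k : ℤ) + 1)) =
        X i * (m (-N) - m 0) := by
      intro N
      induction N with
      | zero => simp
      | succ N ih =>
        rw [sum_range_succ, mul_add, ih, h1]; push_cast
        rw [show -((N : ℤ) + 1) + 1 = -N by ring]; ring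
    have h0 : mon μ = m 0 := by simp [hm]
    have hs : mon (sw i j μ) = m (μ i - μ j) := by rw [sw_eq_add hij]
    change (X i - X j) * (∑ k ∈ range _, m k - ∑ k ∈ range _, m (-((k : ℤ) + 1))) = _
    rw [mul_sub, h2, h3, h0, hs]
    rcases le_total (μ j) (μ i) with h | h
    · rw [Int.toNat_of_nonneg (sub_nonneg.2 h), Int.toNat_eq_zero.2 (sub_nonpos.2 h)]
      simp
    · rw [Int.toNat_of_nonneg (sub_nonneg.2 h), Int.toNat_eq_zero.2 (sub_nonpos.2 h)]
      simp; ring
  exact LinearMap.congr_fun key f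

lemma D_mon_mem {i j : Fin n} {μ : V n} {N : Submodule R (L R n)}
    (h : ∀ k : ℤ, (0 ≤ k ∧ k < μ i - μ j) ∨ (μ i - μ j ≤ k ∧ k < 0) →
      (mon (μ + k • (e j - e i)) : L R n) ∈ N) : D i j (mon μ) ∈ N := by
  rw [D_mon, Dm]
  refine N.sub_mem (N.sum_mem fun k hk => h _ ?_) (N.sum_mem fun k hk => h _ ?_)
  · rw [mem_range] at hk; omega
  · rw [mem_range] at hk; omega

lemma cancel {i j : Fin n} (hij : i ≠ j) {f g : L R n}
    (h : (X i - X j) * f = (X i - X j) * g) : f = g := by
  have h' : (X i - X j) * (f - g) = 0 := by rw [mul_sub, h, sub_self]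
  rw [← sub_eq_zero]
  generalize f - g = p at h'
  by_contra hp
  have hne : p.coeff.support.Nonempty := by
    rw [Finsupp.support_nonempty_iff]; simpa using hp
  obtain ⟨μ, hμ, hmax⟩ := exists_max_image _ (fun μ : V n => μ i) hne
  have h1 : ((X i : L R n) * p).coeff (e i + μ) = p.coeff μ := by
    simp [X, mon, coeff_single_mul_apply]
  have h2 : ((X j : L R n) * p).coeff (e i + μ) = 0 := by
    simp only [X, mon, coeff_single_mul_apply, one_mul]
    by_contra h3
    have := hmax _ (Finsupp.mem_support_iff.2 h3)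
    simp [e_apply, hij] at this
  have h3 : ((X i : L R n) * p) = X j * p := by linear_combination h'
  rw [h3, h2] at h1
  exact Finsupp.mem_support_iff.1 hμ h1.symm

noncomputable def A (v : R) (i j : Fin n) : L R n →ₗ[R] L R n :=
  (S i j).toLinearMap + (1 - v) • D i j

noncomputable def B (v : R) (i j : Fin n) : L R n →ₗ[R] L R n :=
  A v i j + (v - 1) • LinearMap.id

lemma A_apply (v : R) (i j : Fin n) (f : L R n) :
    A v i j f = S i j f + (1 - C v) * D i j f := by
  simp [A, smul_eq]

lemma B_apply (v : R) (i j : Fin n) (f : L R n) :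
    B v i j f = A v i j f + (C v - 1) * f := by
  simp [B, smul_eq]

lemma chA (v : R) {i j : Fin n} (hij : i ≠ j) (f : L R n) :
    (X i - X j) * A v i j f = (C v * X i - X j) * S i j f + (1 - C v) * X i * f := by
  rw [A_apply]
  linear_combination (1 - C v) * chD hij f

lemma A_nat {R' : Type*} [CommRing R'] {n' : ℕ} (Φ : L R n →+* L R' n') {v : R} {v' : R'}
    {i j : Fin n} {i' j' : Fin n'} (hij : i ≠ j) (hij' : i' ≠ j')
    (hi : Φ (X i) = X i') (hj : Φ (X j) = X j') (hv : Φ (C v) = C v')
    (hS : ∀ f, Φ (S i j f) = S i' j' (Φ f)) (f : L R n) :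
    Φ (A v i j f) = A v' i' j' (Φ f) := by
  apply cancel hij'
  have := congrArg Φ (chA v hij f)
  simp only [map_mul, map_sub, map_add, map_one, hi, hj, hv, hS] at this
  rw [this, chA v' hij']

lemma B_nat {R' : Type*} [CommRing R'] {n' : ℕ} (Φ : L R n →+* L R' n') {v : R} {v' : R'}
    {i j : Fin n} {i' j' : Fin n'} (hij : i ≠ j) (hij' : i' ≠ j')
    (hi : Φ (X i) = X i') (hj : Φ (X j) = X j') (hv : Φ (C v) = C v')
    (hS : ∀ f, Φ (S i j f) = S i' j' (Φ f)) (f : L R n) :
    Φ (B v i j f) = B v' i' j' (Φ f) := by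
  rw [B_apply, B_apply, map_add, A_nat Φ hij hij' hi hj hv hS]
  simp [hv]

lemma A_mul (v : R) {i j : Fin n} (hij : i ≠ j) {g : L R n} (hg : S i j g = g) (f : L R n) :
    A v i j (g * f) = g * A v i j f := by
  apply cancel hij
  rw [chA v hij, map_mul, hg]
  linear_combination (-g) * chA v hij f

lemma B_mul (v : R) {i j : Fin n} (hij : i ≠ j) {g : L R n} (hg : S i j g = g) (f : L R n) :
    B v i j (g * f) = g * B v i j f := by
  rw [B_apply, B_apply, A_mul v hij hg]; ring

lemma A_symm (v : R) {i j : Fin n} (hij : i ≠ j) {g : L R n} (hg : S i j g = g) :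
    A v i j g = g := by
  apply cancel hij
  rw [chA v hij, hg]; ring

lemma A_A (v : R) {i j : Fin n} (hij : i ≠ j) (f : L R n) :
    A v i j (A v i j f) = (1 - C v) * A v i j f + C v * f := by
  apply cancel hij
  apply cancel hij
  have h1 := chA v hij (A v i j f)
  have h2 := chA v hij f
  have h3 := congrArg (S i j) h2
  simp only [map_mul, map_sub, map_add, map_one, S_X, S_C, S_S, Equiv.swap_apply_left,
    Equiv.swap_apply_right] at h3
  linear_combination (X i - X j) * h1 - (C v * X i - X j) * h3 + (1 - C v) * X j * h2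

lemma A_B (v : R) {i j : Fin n} (hij : i ≠ j) (f : L R n) :
    A v i j (B v i j f) = C v * f := by
  rw [B_apply, map_add, A_A v hij, A_mul v hij (by simp)]; ring

lemma B_A (v : R) {i j : Fin n} (hij : i ≠ j) (f : L R n) :
    B v i j (A v i j f) = C v * f := by
  rw [B_apply, A_A v hij]; ring

lemma B_B (v : R) {i j : Fin n} (hij : i ≠ j) (f : L R n) :
    B v i j (B v i j f) = (C v - 1) * B v i j f + C v * f := by
  rw [B_apply v i j (B v i j f), A_B v hij]; ring

lemma B_Y (v : R) {i j : Fin n} (hij : i ≠ j) (f : L R n) :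
    B v i j (Y j * f) = Y i * A v i j f := by
  apply cancel hij
  rw [B_apply, mul_add, chA v hij, map_mul, S_Y, Equiv.swap_apply_right]
  have h1 := X_mul_Y (R := R) i
  have h2 := X_mul_Y (R := R) j
  linear_combination (-Y i) * chA v hij f + (1 - C v) * f * h2 - (1 - C v) * f * h1

lemma S_comm {i j k l : Fin n} (hik : i ≠ k) (hil : i ≠ l) (hjk : j ≠ k) (hjl : j ≠ l)
    (f : L R n) : S k l (S i j f) = S i j (S k l f) := by
  refine alg_ext (T := (S k l).comp (S i j)) (U := (S i j).comp (S k l)) (fun μ => ?_) f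
  simp only [AlgHom.comp_apply, S_mon]
  congr 1
  funext a
  simp only [sw_apply]
  split_ifs <;> simp_all

lemma A_comm (v : R) {i j k l : Fin n} (hij : i ≠ j) (hkl : k ≠ l) (hik : i ≠ k) (hil : i ≠ l)
    (hjk : j ≠ k) (hjl : j ≠ l) (f : L R n) :
    A v i j (A v k l f) = A v k l (A v i j f) := by
  apply cancel hkl
  have hk : S i j (X k : L R n) = X k := by
    rw [S_X, Equiv.swap_apply_of_ne_of_ne hik.symm hjk.symm]
  have hl : S i j (X l : L R n) = X l := by
    rw [S_X, Equiv.swap_apply_of_ne_of_ne hil.symm hjl.symm]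
  have hn : S k l (A v i j f) = A v i j (S k l f) := by
    refine A_nat (S k l : L R n →ₐ[R] L R n).toRingHom hij hij ?_ ?_ (S_C k l v)
      (fun g => S_comm hik hil hjk hjl g) f
    · exact (S_X k l i).trans (by rw [Equiv.swap_apply_of_ne_of_ne hik hil])
    · exact (S_X k l j).trans (by rw [Equiv.swap_apply_of_ne_of_ne hjk hjl])
  rw [← A_mul v hij (by rw [map_sub, hk, hl]), chA v hkl, chA v hkl, map_add,
    A_mul v hij (by simp [hk, hl]), A_mul v hij (by simp [hk]), hn]

lemma B_comm (v : R) {i j k l : Fin n} (hij : i ≠ j) (hkl : k ≠ l) (hik : i ≠ k) (hil : i ≠ l)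
    (hjk : j ≠ k) (hjl : j ≠ l) (f : L R n) :
    B v i j (B v k l f) = B v k l (B v i j f) := by
  simp only [B_apply, map_add]
  rw [A_mul v hij (by simp), A_mul v hkl (by simp), A_comm v hij hkl hik hil hjk hjl]
  ring

lemma S_braid {i j k : Fin n} (hij : i ≠ j) (hjk : j ≠ k) (hik : i ≠ k) (f : L R n) :
    S i j (S j k (S i j f)) = S j k (S i j (S j k f)) := by
  refine alg_ext (T := (S i j).comp ((S j k).comp (S i j)))
    (U := (S j k).comp ((S i j).comp (S j k))) (fun μ => ?_) f
  simp only [AlgHom.comp_apply, S_mon]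
  congr 1
  funext a
  simp only [sw_apply]
  split_ifs <;> simp_all

lemma A_braid (v : R) {i j k : Fin n} (hij : i ≠ j) (hjk : j ≠ k) (hik : i ≠ k) (f : L R n) :
    A v i j (A v j k (A v i j f)) = A v j k (A v i j (A v j k f)) := by
  have sz : Equiv.swap i j k = k := Equiv.swap_apply_of_ne_of_ne hik.symm hjk.symm
  have tx : Equiv.swap j k i = i := Equiv.swap_apply_of_ne_of_ne hij hik
  have E1 := chA v hij (A v j k (A v i j f))
  have E2 := chA v hjk (A v i j f)
  have E3 := congrArg (S i j) E2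
  have E4 := chA v hij f
  have E5 := congrArg (S j k) E4
  have E6 := congrArg (S i j) E4
  have E7 := congrArg (S i j) E5
  have F1 := chA v hjk (A v i j (A v j k f))
  have F2 := chA v hij (A v j k f)
  have F3 := congrArg (S j k) F2
  have F4 := chA v hjk f
  have F5 := congrArg (S i j) F4
  have F6 := congrArg (S j k) F4
  have F7 := congrArg (S j k) F5
  simp only [map_mul, map_sub, map_add, map_one, S_X, S_C, S_S, Equiv.swap_apply_left,
    Equiv.swap_apply_right, sz, tx] at E3 E5 E6 E7 F3 F5 F6 F7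
  rw [S_braid hij hjk hik] at E7
  apply cancel hij; apply cancel hij; apply cancel hjk; apply cancel hjk; apply cancel hik
  set x : L R n := X i
  set y : L R n := X j
  set z : L R n := X k
  set w : L R n := C v
  linear_combination (y - z) * ((x - y) * (x - z) * (y - z) * E1
      + (w * x - y) * ((x - y) * (y - z) * E3 + (w * x - z) * (x - y) * E7
        - (1 - w) * x * (y - z) * E6)
      + (1 - w) * x * ((x - y) * (x - z) * E2 + (w * y - z) * (x - y) * E5
        + (1 - w) * y * (x - z) * E4))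
    - (x - y) * ((y - z) * (x - z) * (x - y) * F1
      + (w * y - z) * ((x - y) * (y - z) * F3 + (w * x - z) * (y - z) * F7
        - (1 - w) * x * (x - y) * F6)
      + (1 - w) * y * ((y - z) * (x - z) * F2 + (w * x - y) * (y - z) * F5
        + (1 - w) * x * (x - z) * F4))

lemma B_braid (v : R) {i j k : Fin n} (hij : i ≠ j) (hjk : j ≠ k) (hik : i ≠ k) (f : L R n) :
    B v i j (B v j k (B v i j f)) = B v j k (B v i j (B v j k f)) := by
  have h1 : ∀ g, A v i j ((C v - 1) * g) = (C v - 1) * A v i j g :=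
    fun g => A_mul v hij (by simp) g
  have h2 : ∀ g, A v j k ((C v - 1) * g) = (C v - 1) * A v j k g :=
    fun g => A_mul v hjk (by simp) g
  simp only [B_apply, map_add, h1, h2]
  rw [A_braid v hij hjk hik, A_A v hij, A_A v hjk]
  ring

end Pool.Agent.Lib.MP_a77f20_co
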