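import Pool.Agent.Lib.MP_a77f20_co.Pieri

namespace Pool.Agent.Lib.MP_a77f20_co

open AddMonoidAlgebra Finset

variable {R : Type*} [CommRing R] {n : ℕ}

open Classical in
lemma F_zero (v : R) (α β : V n) : F v 0 α β = if α = β then 1 else 0 := by
  unfold F
  by_cases h : α = β
  · subst h
    have : hh α α = 0 := sum_eq_zero fun a _ => sum_eq_zero fun b _ => by
      split_ifs
      · unfold hp; omega
      · rfl
    simp [this]
  · rw [if_neg h]
    split_ifs with h'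
    · have : ∑ l, α l < ∑ l, β l := by
        refine sum_lt_sum (fun l _ => h' l) ?_
        by_contra hc
        push Not at hc
        exact h (funext fun l => le_antisymm (h' l) (hc l (mem_univ _)))
      rw [zero_pow (by omega), zero_mul]
    · rfl

lemma expand {v : R} (hv : IsNilpotent v) {p : L R n} (hp : p ∈ supp R {ν : V n | ∀ l, ν l ≤ 0}) :
    ∃ T0 : Finset (V n), (∀ a ∈ T0, ∀ l, 0 ≤ a l) ∧ ∀ T : Finset (V n), T0 ⊆ T →
      p = ∑ a ∈ T, C (ph v 0 (Ep v a * p)) * Em v (-a) := by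
  classical
  have hp' := Em_span v hp
  clear hp
  induction hp' using Submodule.span_induction with
  | mem x hx =>
    obtain ⟨μ, hμ, rfl⟩ := hx
    refine ⟨{-μ}, by simpa using hμ, fun T hT => ?_⟩
    simp only [pieri hv IsNilpotent.zero, F_zero]
    rw [sum_eq_single (-μ) (fun b _ hb => by simp [hb]) (fun h => absurd (hT (by simp)) h)]
    simp
  | zero => exact ⟨∅, by simp, fun T _ => by simp⟩
  | add x y _ _ hx hy =>
    obtain ⟨T1, a1, b1⟩ := hx
    obtain ⟨T2, a2, b2⟩ := hy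
    refine ⟨T1 ∪ T2, fun a ha => (mem_union.1 ha).elim (a1 a) (a2 a), fun T hT => ?_⟩
    simp only [mul_add, map_add, add_mul, sum_add_distrib]
    rw [← b1 T (subset_union_left.trans hT), ← b2 T (subset_union_right.trans hT)]
  | smul r x _ hx =>
    obtain ⟨T1, a1, b1⟩ := hx
    refine ⟨T1, a1, fun T hT => ?_⟩
    simp only [smul_eq, mul_left_comm _ (C r), ph_C_mul, map_mul, mul_assoc, ← mul_sum]
    rw [← b1 T hT]

lemma cl_le : Cl {ν : V n | ∀ l, ν l ≤ 0} :=
  ⟨fun _ => le_rfl, fun _ h1 _ h2 l => add_nonpos (h1 l) (h2 l)⟩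

lemma Zc_mem (v : R) {c : Fin n → R} (hc : ∀ a, IsNilpotent (c a)) :
    Zc v c ∈ supp R {ν : V n | ∀ l, ν l ≤ 0} := by
  have hY : ∀ b : Fin n, (Y b : L R n) ∈ supp R {ν : V n | ∀ l, ν l ≤ 0} := fun b =>
    mon_mem fun l => by simp only [Pi.neg_apply, e_apply]; split_ifs <;> simp
  refine cl_le.prod fun a _ => cl_le.mul (cl_le.iv (nil_C (hc a) _) (C_mul_mem _ (hY a)))
    (cl_le.prod fun b _ => ?_)
  split_ifs
  · exact cl_le.mul (sub_mem cl_le.one (C_mul_mem _ (C_mul_mem _ (hY b))))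
      (cl_le.iv (nil_C (hc a) _) (C_mul_mem _ (hY b)))
  · exact cl_le.one

lemma expandT (v : R) {c : Fin (n + 1) → R} (hc : ∀ a, IsNilpotent (c a))
    {T : Finset (V (n + 1))} (hT : ∀ a ∈ T, ∀ l, 0 ≤ a l) {g : V (n + 1) → R}
    (h : Zc v c = ∑ a ∈ T, C (g a) * Em v (-a)) :
    Zc v c * (1 - C (c 0) * Y 0) = ∑ a ∈ T with a 0 = 0, C (g a) * Em v (-a) := by
  have hY : ∀ b : Fin n, (Y b.succ : L R (n + 1)) ∈ supp R (Ge (cw 0) 0) := fun b => by
    rw [← rs_Y]; exact rs_p _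
  have h1 : Zc v c * (1 - C (c 0) * Y 0) ∈ supp R (Ge (cw 0) 0) := by
    rw [Zc_succ v hc, mul_assoc (iv _), mul_comm, ← mul_assoc, iv_mul (nil_C (hc 0) _), one_mul]
    exact (cl_Ge _).mul ((cl_Ge _).prod fun b _ => (cl_Ge _).mul
        (sub_mem (cl_Ge _).one (C_mul_mem _ (C_mul_mem _ (hY b))))
        ((cl_Ge _).iv (nil_C (hc 0) _) (C_mul_mem _ (hY b)))) (rs_p _)
  have h2 : ∑ a ∈ T with a 0 = 0, C (g a) * Em v (-a) ∈ supp R (Ge (cw 0) 0) := by
    refine Submodule.sum_mem _ fun a ha => C_mul_mem _ ?_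
    rw [mem_filter] at ha
    have : -a = cons0 fun i => -a i.succ := by
      funext k; refine Fin.cases ?_ (fun i => rfl) k; simpa using ha.2
    rw [this, ← rs_Em v fun i => by simpa using hT a ha.1 _]
    exact rs_p _
  have h3 : Zc v c * (C (c 0) * Y 0) ∈ supp R (Ge (-cw 0) 1) := by
    refine mul_Ge (d := 0) (d' := 1) (by norm_num) (supported_mono ?_ (Zc_mem v hc))
      (C_mul_mem _ (mon_mem (by simp [mem_Ge, e_apply])))
    exact fun ν hν => by simpa [mem_Ge] using hν 0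
  have h4 : ∑ a ∈ T with ¬a 0 = 0, C (g a) * Em v (-a) ∈ supp R (Ge (-cw 0) 1) := by
    refine Submodule.sum_mem _ fun a ha => C_mul_mem _ ?_
    rw [mem_filter] at ha
    refine supported_mono ?_ (Em_neg v (μ := -a) fun l => by simpa using hT a ha.1 l)
    intro ν hν
    have := hν.2 0 (by have := hT a ha.1 0; have := ha.2; simp only [Pi.neg_apply]; omega)
    simp only [mem_Ge, AddMonoidHom.neg_apply, cw_apply]; omega
  have h5 := sub_mem h1 h2
  have h6 := sub_mem h4 h3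
  have h7 : ∑ a ∈ T with ¬a 0 = 0, C (g a) * Em v (-a) - Zc v c * (C (c 0) * Y 0) =
      Zc v c * (1 - C (c 0) * Y 0) - ∑ a ∈ T with a 0 = 0, C (g a) * Em v (-a) := by
    rw [← sum_filter_add_sum_filter_not T (fun a => a 0 = 0)] at h
    linear_combination -h
  rw [h7] at h6
  rw [← sub_eq_zero]
  ext μ
  by_cases hμ : 0 ≤ μ 0
  · exact mem_supported'.1 h6 μ (by simp only [mem_Ge, AddMonoidHom.neg_apply, cw_apply]; omega)
  · exact mem_supported'.1 h5 μ hμ

noncomputable def bc : L R n →+* L (L R (n + 1)) n := mapRingHom (V n) C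

lemma bc_mon (μ : V n) : bc (mon μ : L R n) = mon μ := by simp [bc, mon]
lemma bc_C (r : R) : bc (C r : L R n) = C (C r) := by
  simp [bc, C, AddMonoidAlgebra.coe_algebraMap]

lemma ring_ext {T : Type*} [CommRing T] {Φ Ψ : L R n →+* T} (h1 : ∀ r, Φ (C r) = Ψ (C r))
    (h2 : ∀ μ, Φ (mon μ) = Ψ (mon μ)) (f : L R n) : Φ f = Ψ f := by
  refine supp_ind (P := fun f => Φ f = Ψ f) (by simp) ?_ ?_ (fun μ _ => h2 μ) (mem_supp_univ f)
  · intro f g hf hg; rw [map_add, map_add, hf, hg]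
  · intro r f hf; rw [smul_eq, map_mul, map_mul, hf, h1]

lemma bc_S (i j : Fin n) (f : L R n) : bc (S i j f) = S i j (bc f) :=
  ring_ext (Φ := bc.comp (S i j).toRingHom) (Ψ := (S i j).toRingHom.comp bc)
    (fun r => by simp [bc_C]) (fun μ => by simp [bc_mon]) f

lemma bc_Ep (v : R) (μ : V n) : bc (Ep v μ) = Ep (C v) μ :=
  Fam_nat (good_A v) (good_A (C v)) bc id id (fun _ => True) (fun _ _ h => h)
    (fun i j h f => A_nat bc h.ne h.ne (bc_mon _) (bc_mon _) (bc_C v) (bc_S i j) f) bc_mon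
    (fun _ _ _ => rfl) (fun _ _ => rfl) (fun _ _ _ h => h) (fun _ _ h => h) μ trivial

lemma bc_Em (v : R) (μ : V n) : bc (Em v μ) = Em (C v) μ :=
  Fam_nat (good_B v) (good_B (C v)) bc id id (fun _ => True) (fun _ _ h => h)
    (fun i j h f => B_nat bc h.ne h.ne (bc_mon _) (bc_mon _) (bc_C v) (bc_S i j) f) bc_mon
    (fun _ _ _ => rfl) (fun _ _ => rfl) (fun _ _ _ h => h) (fun _ _ h => h) μ trivial

noncomputable def evH : Multiplicative (V n) →* L R (n + 1) where
  toFun μ := mon (cons0 μ.toAdd)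
  map_one' := by
    have : cons0 (0 : V n) = 0 := consH.map_zero
    simp [this]
  map_mul' μ ν := by simp [cons0_add, mon_add]

noncomputable def ev : L (L R (n + 1)) n →ₐ[L R (n + 1)] L R (n + 1) :=
  AddMonoidAlgebra.lift _ _ _ evH

lemma ev_mon (μ : V n) : ev (mon μ : L (L R (n + 1)) n) = mon (cons0 μ) := by
  simp [ev, mon, evH]
lemma ev_C (r : L R (n + 1)) : ev (C r : L (L R (n + 1)) n) = r := ev.commutes r
lemma ev_Y (i : Fin n) : ev (Y i : L (L R (n + 1)) n) = Y i.succ := by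
  rw [Y, ev_mon, cons0_neg, cons0_e, Y]
lemma ev_bc (f : L R n) : ev (bc f) = rs f :=
  ring_ext (Φ := ev.toRingHom.comp bc) (Ψ := rs.toRingHom)
    (fun r => by simp [bc_C, ev_C]) (fun μ => by simp [bc_mon, ev_mon]) f

noncomputable def cu (u : R) (a : Fin n) : L R (n + 1) := C u * X a.castSucc

lemma mon_sum {ι : Type*} (s : Finset ι) (f : ι → V n) :
    (mon (∑ i ∈ s, f i) : L R n) = ∏ i ∈ s, mon (f i) := by
  classical
  induction s using Finset.induction_on with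
  | empty => simp
  | insert a s ha ih => rw [sum_insert ha, prod_insert ha, mon_add, ih]

lemma mon_eq_prod {μ : V n} (h : ∀ l, 0 ≤ μ l) : (mon μ : L R n) = ∏ i, X i ^ (μ i).toNat := by
  simp only [X, ← mon_nsmul, ← mon_sum]
  congr 1
  funext k
  simp [e_apply, h k]

lemma coef_Zc {u v : R} (hu : IsNilpotent u) (hv : IsNilpotent v) {a : V n} (ha : ∀ l, 0 ≤ a l) :
    ph (C v) 0 (Ep (C v) a * Zc (C v) (cu u)) = C (u ^ (∑ l, a l).toNat) * rc (Ep v a) := by
  have hm : Ep v a ∈ supp R ({ν : V n | ∀ l, 0 ≤ ν l} ∩ {ν : V n | ∑ l, ν l = ∑ l, a l}) :=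
    Ep_mem v (fun i j h => (seg_ge 0 i j).inter (seg_sum _ h.ne)) ⟨ha, rfl⟩
  rw [← bc_Ep]
  refine supp_ind (P := fun f => ph (C v) 0 (bc f * Zc (C v) (cu u)) =
    C (u ^ (∑ l, a l).toNat) * rc f) (by simp) ?_ ?_ ?_ hm
  · intro f g hf hg; rw [map_add, add_mul, map_add, hf, hg, map_add, mul_add]
  · intro r f hf; rw [smul_eq, map_mul bc, bc_C, mul_assoc, ph_C_mul, hf, map_mul rc, rc_C]; ring
  · rintro μ ⟨h1, h2⟩
    rw [bc_mon, reproduce (hv.map C) (c := cu u) (fun a => nil_C hu _) h1, mon_eq_prod h1, ← h2]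
    have : (∑ l, μ l).toNat = ∑ l, (μ l).toNat := by
      zify
      rw [Int.toNat_of_nonneg (sum_nonneg fun l _ => h1 l)]
      exact sum_congr rfl fun l _ => (Int.toNat_of_nonneg (h1 l)).symm
    simp only [cu, mul_pow, prod_mul_distrib, prod_pow_eq_pow_sum, map_prod, map_pow, rc_X, this]

noncomputable def Gsym (u v : R) (n : ℕ) : L R (n + 1) :=
  ∏ a : Fin n, ∏ b : Fin n,
    ((if a < b then 1 - C u * C v * (X a.castSucc * Y b.succ) else 1) *
      if a ≤ b then (1 - X a.castSucc * Y b.succ) *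
        (iv (C u * (X a.castSucc * Y b.succ)) * iv (C v * (X a.castSucc * Y b.succ))) else 1)

lemma Gsym_comm (u v : R) : Gsym u v n = Gsym v u n := by
  simp only [Gsym, mul_comm (C u) (C v), mul_comm (iv (C u * _))]

lemma ev_Zc_Del {u : R} (hu : IsNilpotent u) (v : R) :
    ev (Zc (C v) (cu u)) * Del v (n + 1) = Gsym u v n := by
  have h1 : Del v (n + 1) = ∏ a : Fin n, ∏ b : Fin n,
      if a ≤ b then psi v (X a.castSucc * Y b.succ) else 1 := by
    have h : ∀ i : Fin (n + 1), ¬ Fin.last n < i := fun i => not_lt.2 (Fin.le_last _)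
    rw [Del, Fin.prod_univ_castSucc]
    simp [h, Fin.prod_univ_succ]
  have hn : ∀ a b : Fin n, IsNilpotent (C (cu u a) * Y b : L (L R (n + 1)) n) :=
    fun a b => nil_C (nil_C hu _) _
  rw [h1, Zc, map_prod, ← prod_mul_distrib, Gsym]
  refine prod_congr rfl fun a _ => ?_
  simp only [map_mul, map_prod, apply_ite ev, map_iv ev (hn _ _), ev_C, ev_Y, map_sub, map_one]
  have h2 : iv (cu u a * Y a.succ) = ∏ b : Fin n,
      if a = b then iv (cu u a * Y b.succ) else 1 := by simp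
  rw [h2, ← prod_mul_distrib, ← prod_mul_distrib]
  refine prod_congr rfl fun b _ => ?_
  rcases lt_trichotomy a b with h | h | h
  · simp only [h, h.le, h.ne, if_true, if_false, psi, cu, mul_assoc]; ring
  · subst h; simp only [lt_irrefl, le_refl, if_true, if_false, psi, cu, mul_assoc]; ring
  · simp [h.ne', not_lt.2 h.le, not_le.2 h]

noncomputable def term (u v w : R) (m : ℤ) (a : V n) : R :=
  u ^ (∑ l, a l).toNat * F v w (snoc0 a) (cons0 a + cst m)

lemma ph_term {v w : R} (u : R) (hv : IsNilpotent v) (hw : IsNilpotent w) (m : ℤ) {a : V n}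
    (ha : ∀ l, 0 ≤ a l) :
    ph v w (mon (cst (-m)) * ev (C (C (u ^ (∑ l, a l).toNat) * rc (Ep v a)) * Em (C v) (-a))) =
      term u v w m a := by
  rw [map_mul ev, ev_C, ← bc_Em, ev_bc, rs_Em v fun l => by simpa using ha l, rc_Ep v ha,
    mul_left_comm, mul_assoc, ph_C_mul, ← Em_shift, pieri hv hw, term, cons0_neg]
  congr 2
  funext k; simp [cst]; ring

theorem sym_sum {u v w : R} (hu : IsNilpotent u) (hv : IsNilpotent v) (hw : IsNilpotent w)
    (m : ℤ) (W : Finset (V (n + 1))) (hW : ∀ a ∈ W, ∀ l, 0 ≤ a l)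
    (hW' : ∀ a : V (n + 1), (∀ l, 0 ≤ a l) → (∀ l, snoc0 a l ≤ cons0 a l + m) → a ∈ W) :
    ∑ a ∈ W, term u v w m a = CT (mon (cst (-m)) * Om w (n + 1 + 1) * Gsym u v (n + 1)) ∧
    ∑ a ∈ W with a 0 = 0, term u v w m a =
      CT (mon (cst (-m)) * Om w (n + 1 + 1) * Gsym u v (n + 1)) -
        u * CT (mon (cst (-m)) * Om w (n + 1 + 1) * Gsym u v (n + 1) * (X 0 * Y 1)) := by
  classical
  have hc : ∀ a : Fin (n + 1), IsNilpotent (cu u a) := fun a => nil_C hu _
  obtain ⟨T0, h0, h1⟩ := expand (hv.map C) (Zc_mem (C v) hc)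
  have hT : ∀ a ∈ T0 ∪ W, ∀ l, 0 ≤ a l := fun a ha => (mem_union.1 ha).elim (h0 a) (hW a)
  have h2 : Zc (C v) (cu u) = ∑ a ∈ T0 ∪ W,
      C (C (u ^ (∑ l, a l).toNat) * rc (Ep v a)) * Em (C v) (-a) :=
    (h1 _ subset_union_left).trans (sum_congr rfl fun a ha => by rw [coef_Zc hu hv (hT a ha)])
  have h3 := expandT (C v) hc hT h2
  have hz : ∀ a ∈ T0 ∪ W, a ∉ W → term u v w m a = 0 := by
    intro a ha ha'
    have : ¬ ∀ l, snoc0 a l ≤ (cons0 a + cst m : V (n + 1 + 1)) l :=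
      fun h => ha' (hW' a (hT a ha) h)
    rw [term, F, if_neg this, mul_zero]
  have key : ∀ (U : Finset (V (n + 1))) (p : L (L R (n + 1 + 1)) (n + 1)), U ⊆ T0 ∪ W →
      p = ∑ a ∈ U, C (C (u ^ (∑ l, a l).toNat) * rc (Ep v a)) * Em (C v) (-a) →
      ∑ a ∈ U, term u v w m a = ph v w (mon (cst (-m)) * ev p) := by
    intro U p hU hp
    rw [hp, map_sum ev, mul_sum, map_sum (ph v w)]
    exact sum_congr rfl fun a ha => (ph_term u hv hw m (hT a (hU ha))).symm
  constructor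
  · rw [sum_subset subset_union_right hz, key _ _ subset_rfl h2, ← ev_Zc_Del hu, ph_apply]
    exact congrArg CT (by ring)
  · rw [sum_subset (filter_subset_filter _ (subset_union_right (s₁ := T0)))
      (fun a ha ha' => hz a (mem_filter.1 ha).1 fun h => ha' (mem_filter.2 ⟨h, (mem_filter.1 ha).2⟩)),
      key _ _ (filter_subset _ _) h3, ← ev_Zc_Del hu, ph_apply, ← CT_C_mul, ← map_sub CT,
      map_mul ev, map_sub ev, map_one ev, map_mul ev, ev_C, ev_Y, cu,
      Fin.castSucc_zero, Fin.succ_zero_eq_one]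
    exact congrArg CT (by ring)

theorem key_identity {u v w : R} (hu : IsNilpotent u) (hv : IsNilpotent v) (hw : IsNilpotent w)
    (m : ℤ) (W : Finset (V (n + 1))) (hW : ∀ a ∈ W, ∀ l, 0 ≤ a l)
    (hW' : ∀ a : V (n + 1), (∀ l, 0 ≤ a l) → (∀ l, snoc0 a l ≤ cons0 a l + m) → a ∈ W) :
    (u - v) * ∑ a ∈ W, term u v w m a =
      u * ∑ a ∈ W with a 0 = 0, term v u w m a - v * ∑ a ∈ W with a 0 = 0, term u v w m a := by
  obtain ⟨h1, h2⟩ := sym_sum hu hv hw m W hW hW'
  obtain ⟨-, h3⟩ := sym_sum hv hu hw m W hW hW'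
  rw [h1, h2, h3, Gsym_comm v u]; ring

end Pool.Agent.Lib.MP_a77f20_co
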