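import Pool.Agent.Lib.MP_a77f20_co.Form

namespace Pool.Agent.Lib.MP_a77f20_co

open AddMonoidAlgebra Finset

variable {R : Type*} [CommRing R] {n : ℕ}

def cw (k : Fin n) : V n →+ ℤ := Pi.evalAddMonoidHom (fun _ => ℤ) k

@[simp] lemma cw_apply (k : Fin n) (μ : V n) : cw k μ = μ k := rfl

lemma mem_Ge {ω : V n →+ ℤ} {d : ℤ} {μ : V n} : μ ∈ Ge ω d ↔ d ≤ ω μ := Iff.rfl

lemma rs_mem {s : Set (V (n + 1))} (h : ∀ μ, cons0 μ ∈ s) (f : L R n) : rs f ∈ supp R s :=
  map_supp rs.toLinearMap (fun μ _ => by simpa using mon_mem (h μ)) (mem_supp_univ f)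
lemma rc_mem {s : Set (V (n + 1))} (h : ∀ μ, snoc0 μ ∈ s) (f : L R n) : rc f ∈ supp R s :=
  map_supp rc.toLinearMap (fun μ _ => by simpa using mon_mem (h μ)) (mem_supp_univ f)

lemma rs_p (f : L R n) : rs f ∈ supp R (Ge (cw 0) 0) := rs_mem (by simp [mem_Ge]) f
lemma rs_m (f : L R n) : rs f ∈ supp R (Ge (-cw 0) 0) := rs_mem (by simp [mem_Ge]) f
lemma rc_p (f : L R n) : rc f ∈ supp R (Ge (-(-cw (Fin.last n))) 0) := rc_mem (by simp [mem_Ge]) f
lemma rc_m (f : L R n) : rc f ∈ supp R (Ge (-cw (Fin.last n)) 0) := rc_mem (by simp [mem_Ge]) f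

lemma ph_pos {v w : R} (hv : IsNilpotent v) (hw : IsNilpotent w) {f : L R (n + 1)}
    (hf : f ∈ supp R (Ge (cw 0) 1)) : ph v w f = 0 := by
  rw [ph_apply, Om_succ hw, Del_succ hv]
  have hX : (X 0 : L R (n + 1)) ∈ supp R (Ge (cw 0) 0) := mon_mem (by simp [mem_Ge, e_apply])
  refine CT_Ge (mul_Ge (d' := 0) (by norm_num) hf ((cl_Ge _).mul
    ((cl_Ge _).mul ((cl_Ge _).iv (nil_C hw _) (C_mul_mem _ hX)) (rs_p _))
    ((cl_Ge _).mul ((cl_Ge _).prod fun b _ => (cl_Ge _).psi hv ((cl_Ge _).mul hX ?_)) (rs_p _))))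
  rw [← rs_Y]; exact rs_p _

lemma ph_rs {v w : R} (hv : IsNilpotent v) (hw : IsNilpotent w) (g : L R n) :
    ph v w (rs g) = ph v w g := by
  have hb : Cong (cw (0 : Fin (n + 1))) (e 0) (0 : R) (X 0) (C 0) := Cong.base (by simp [e_apply])
  have h1 : Cong (cw (0 : Fin (n + 1))) (e 0) (0 : R)
      (iv (C w * X 0) * (∏ b : Fin n, psi v (X 0 * Y b.succ)) * rs (g * (Om w n * Del v n)))
      (iv (C w * C 0) * (∏ b : Fin n, psi v (C 0 * Y b.succ)) * rs (g * (Om w n * Del v n))) := by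
    refine Cong.mul (Cong.mul ?_ (Cong.prod fun b _ => Cong.psi hv (hb.mul (Cong.refl ?_))))
      (Cong.refl (rs_p _))
    · exact ((Cong.refl ((cl_Ge _).C w)).mul hb).iv (nil_C hw _) (nil_C hw _)
    · rw [← rs_Y]; exact rs_p _
  simp only [map_zero, mul_zero, zero_mul, iv_zero, psi, sub_zero, mul_one, prod_const_one,
    one_mul] at h1
  have h2 := h1.CT (by simp [e_apply]) IsNilpotent.zero (rs_m _)
  simp only [map_zero, zero_mul, iv_zero, mul_one, CT_rs] at h2
  rw [ph_apply, ph_apply, ← h2, Om_succ hw, Del_succ hv]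
  simp only [map_mul, psi]
  congr 1; ring

lemma ph_rc {v w : R} (hv : IsNilpotent v) (hw : IsNilpotent w) (d : ℕ) (g : L R n) :
    ph v w (Y (Fin.last n) ^ d * rc g) = w ^ d * ph v (v * w) g := by
  have hb : Cong (-cw (Fin.last n)) (-e (Fin.last n)) w (Y (Fin.last n)) (C w) :=
    Cong.base (by simp [e_apply])
  have h1 : Cong (-cw (Fin.last n)) (-e (Fin.last n)) w
      (Y (Fin.last n) ^ d * (∏ a : Fin n, psi v (X a.castSucc * Y (Fin.last n))) *
        rc (g * (Om w n * Del v n)))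
      (C w ^ d * (∏ a : Fin n, psi v (X a.castSucc * C w)) * rc (g * (Om w n * Del v n))) := by
    refine Cong.mul (Cong.mul (hb.pow d) (Cong.prod fun b _ => Cong.psi hv
      (Cong.mul (Cong.refl ?_) hb))) (Cong.refl (rc_m _))
    rw [← rc_X]; exact rc_m _
  have h3 : (∏ a : Fin n, psi v (X a * C w)) * Om w n = Om (v * w) n := by
    rw [Om, Om, ← prod_mul_distrib]
    refine prod_congr rfl fun a _ => ?_
    rw [psi, map_mul, mul_comm (X a), ← mul_assoc (C v)]
    linear_combination iv (C v * C w * X a) * iv_mul (nil_C hw (X a : L R n))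
  have h4 : C w ^ d * (∏ a : Fin n, psi v (X a.castSucc * C w)) * rc (g * (Om w n * Del v n)) =
      rc (C (w ^ d) * (g * (Om (v * w) n * Del v n))) := by
    rw [← h3]
    simp only [map_mul, map_prod, map_psi rc hv, rc_X, rc_C, map_pow]
    ring
  rw [h4] at h1
  have h2 := h1.CT (by simp [e_apply]) hw (rc_p _)
  rw [CT_rc, CT_C_mul, neg_neg] at h2
  rw [ph_apply, ph_apply, ← h2, Om_castSucc hw, Del_castSucc hv]
  simp only [map_mul]
  congr 1; unfold X; ring

lemma mon_nsmul (k : ℕ) (μ : V n) : (mon (k • μ) : L R n) = mon μ ^ k := by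
  induction k with
  | zero => simp
  | succ k ih => rw [succ_nsmul, mon_add, ih, pow_succ]

lemma mon_last {μ : V (n + 1)} {d : ℕ} (h : μ (Fin.last n) = -d) :
    (mon μ : L R (n + 1)) = Y (Fin.last n) ^ d * rc (mon fun i => μ i.castSucc) := by
  rw [rc_mon, Y, ← mon_nsmul, ← mon_add]
  congr 1
  funext k; refine Fin.lastCases ?_ (fun l => ?_) k
  · simp [e_apply, h]
  · simp [e_apply, Fin.castSucc_ne_last]

lemma mon_first {μ : V (n + 1)} {d : ℕ} (h : μ 0 = d) :
    (mon μ : L R (n + 1)) = X 0 ^ d * rs (mon fun i => μ i.succ) := by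
  rw [rs_mon, X, ← mon_nsmul, ← mon_add]
  congr 1
  funext k; refine Fin.cases ?_ (fun l => ?_) k
  · simp [e_apply, h]
  · simp [e_apply]

lemma raise_mon {v : R} (hv : IsNilpotent v) {w : R} (hw : IsNilpotent w) {μ : V n} {j : Fin n}
    (h1 : ∀ k, j ≤ k → μ k ≤ 0) (h2 : μ j < 0) :
    ph v w (mon μ) = w * v ^ (n - 1 - j) * ph v w (mon (e j + μ)) := by
  induction n generalizing w with
  | zero => exact j.elim0
  | succ n ih =>
    have hl := h1 (Fin.last n) (Fin.le_last _)
    induction j using Fin.lastCases with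
    | last =>
      obtain ⟨d, hd⟩ : ∃ d : ℕ, μ (Fin.last n) = -((d + 1 : ℕ) : ℤ) :=
        ⟨(-μ (Fin.last n) - 1).toNat, by omega⟩
      have hd' : (e (Fin.last n) + μ) (Fin.last n) = -d := by
        simp only [Pi.add_apply, e_apply, if_true, hd]; push_cast; ring
      rw [mon_last hd, mon_last hd', ph_rc hv hw, ph_rc hv hw]
      simp only [Pi.add_apply, e_apply, Fin.castSucc_ne_last, if_false, zero_add, Fin.val_last,
        Nat.add_sub_cancel, Nat.sub_self]
      ring
    | cast j =>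
      obtain ⟨d, hd⟩ : ∃ d : ℕ, μ (Fin.last n) = -(d : ℤ) :=
        ⟨(-μ (Fin.last n)).toNat, by omega⟩
      have hd' : (e j.castSucc + μ) (Fin.last n) = -d := by
        simp [e_apply, hd, (Fin.castSucc_ne_last j).symm]
      have hvw : IsNilpotent (v * w) := nil_mul hv w
      rw [mon_last hd, mon_last hd', ph_rc hv hw, ph_rc hv hw,
        ih hvw (μ := fun i => μ i.castSucc) (j := j)
          (fun k hk => h1 _ (Fin.castSucc_le_castSucc_iff.2 hk)) h2]
      have e1 : (e j + fun i => μ i.castSucc) = fun i => (e j.castSucc + μ) i.castSucc := by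
        funext i; simp [e_apply]
      have e2 : n + 1 - 1 - (j.castSucc : ℕ) = n - 1 - j + 1 := by
        have := j.2; simp only [Fin.val_castSucc]; omega
      rw [e1, e2]; ring

lemma raise {v : R} (hv : IsNilpotent v) {w : R} (hw : IsNilpotent w) {j : Fin n} {f : L R n}
    (hf : f ∈ supp R {μ | (∀ k, j ≤ k → μ k ≤ 0) ∧ μ j < 0}) :
    ph v w f = w * v ^ (n - 1 - j) * ph v w (X j * f) := by
  refine supp_ind (P := fun f => ph v w f = w * v ^ (n - 1 - j) * ph v w (X j * f))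
    (by simp) ?_ ?_ ?_ hf
  · intro f g hf hg; rw [mul_add, map_add, map_add, hf, hg]; ring
  · intro r f hf; rw [mul_smul_comm, map_smul, map_smul, hf, smul_eq_mul, smul_eq_mul]; ring
  · intro μ hμ; rw [raise_mon hv hw hμ.1 hμ.2, mon_add, X]

noncomputable def Zc (v : R) (c : Fin n → R) : L R n :=
  ∏ a : Fin n, (iv (C (c a) * Y a) *
    ∏ b : Fin n, if a < b then (1 - C v * (C (c a) * Y b)) * iv (C (c a) * Y b) else 1)

lemma Zc_succ (v : R) {c : Fin (n + 1) → R} (hc : ∀ a, IsNilpotent (c a)) :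
    Zc v c = iv (C (c 0) * Y 0) *
      (∏ b : Fin n, (1 - C v * (C (c 0) * Y b.succ)) * iv (C (c 0) * Y b.succ)) *
      rs (Zc v fun a => c a.succ) := by
  simp [Zc, Fin.prod_univ_succ, map_prod, apply_ite rs, map_iv rs (nil_C (hc _) _)]

lemma reproduce {v : R} (hv : IsNilpotent v) {c : Fin n → R} (hc : ∀ a, IsNilpotent (c a))
    {μ : V n} (hμ : ∀ i, 0 ≤ μ i) :
    ph v 0 (mon μ * Zc v c) = ∏ i, c i ^ (μ i).toNat := by
  induction n with
  | zero =>
    have : μ = 0 := Subsingleton.elim _ _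
    rw [this, mon_zero]
    simp [ph_apply, Zc, Om, Del]
  | succ n ih =>
    have ih' := ih (c := fun a => c a.succ) (fun a => hc _) (μ := fun i => μ i.succ)
      (fun i => hμ _)
    have hd : μ 0 = ((μ 0).toNat : ℕ) := (Int.toNat_of_nonneg (hμ 0)).symm
    have hY : ∀ b : Fin n, (Y b.succ : L R (n + 1)) ∈ supp R (Ge (cw 0) 0) := fun b => by
      rw [← rs_Y]; exact rs_p _
    have hb : Cong (cw (0 : Fin (n + 1))) (e 0) (c 0) (X 0) (C (c 0)) :=
      Cong.base (by simp [e_apply])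
    set r : L R n := (mon fun i => μ i.succ) * (Zc v fun a => c a.succ) * (Om 0 n * Del v n)
      with hr
    set P : L R (n + 1) :=
      ∏ b : Fin n, (1 - C v * (C (c 0) * Y b.succ)) * iv (C (c 0) * Y b.succ) with hP
    have hPm : P ∈ supp R (Ge (cw 0) 0) :=
      (cl_Ge _).prod fun b _ => (cl_Ge _).mul
        (sub_mem (cl_Ge _).one (C_mul_mem _ (C_mul_mem _ (hY b))))
        ((cl_Ge _).iv (nil_C (hc 0) _) (C_mul_mem _ (hY b)))
    have h1 : Cong (cw (0 : Fin (n + 1))) (e 0) (c 0)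
        (X 0 ^ (μ 0).toNat * ((∏ b : Fin n, psi v (X 0 * Y b.succ)) * P) * rs r)
        (C (c 0) ^ (μ 0).toNat * ((∏ b : Fin n, psi v (C (c 0) * Y b.succ)) * P) * rs r) :=
      Cong.mul (Cong.mul (hb.pow _) (Cong.mul (Cong.prod fun b _ => Cong.psi hv
        (hb.mul (Cong.refl (hY b)))) (Cong.refl hPm))) (Cong.refl (rs_p _))
    have h3 : (∏ b : Fin n, psi v (C (c 0) * Y b.succ)) * P = 1 := by
      rw [hP, ← prod_mul_distrib]
      refine prod_eq_one fun b _ => ?_
      rw [psi]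
      linear_combination (1 - C v * (C (c 0) * Y b.succ)) * iv (C v * (C (c 0) * Y b.succ)) *
        iv_mul (nil_C (hc 0) (Y b.succ : L R (n + 1))) +
        iv_mul (nil_C hv (C (c 0) * Y b.succ : L R (n + 1)))
    rw [h3, mul_one, ← map_pow] at h1
    have h2 := h1.CT (by simp [e_apply]) (hc 0) (C_mul_mem _ (rs_m _))
    rw [CT_C_mul, CT_rs, hr, ← ph_apply, ih'] at h2
    rw [Fin.prod_univ_succ, ← h2, ph_apply, mon_first hd, Zc_succ v hc, Om_succ IsNilpotent.zero,
      Del_succ hv, ← hP, show (mon (-e 0) : L R (n + 1)) = Y 0 from rfl]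
    simp only [map_mul, map_zero, zero_mul, iv_zero, one_mul]
    congr 1; ring

lemma Ep_first_pos (v : R) (k : ℕ) {μ : V n}
    (hμ : μ ∈ {ν : V n | (∀ l, 0 ≤ ν l) ∧ ∀ l : Fin n, (l : ℕ) < k → 1 ≤ ν l}) :
    Ep v μ ∈ supp R {ν : V n | (∀ l, 0 ≤ ν l) ∧ ∀ l : Fin n, (l : ℕ) < k → 1 ≤ ν l} := by
  have seg : ∀ (k : ℕ) (i j : Fin n), Adj i j → (j : ℕ) ≠ k →
      Seg {ν : V n | (∀ l, 0 ≤ ν l) ∧ ∀ l : Fin n, (l : ℕ) < k → 1 ≤ ν l} i j := by
    intro k i j hij hk μ hμ ν h1 h2 h3 h4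
    refine ⟨seg_ge 0 i j μ hμ.1 ν h1 h2 h3 h4, fun l hl => ?_⟩
    unfold Adj at hij
    by_cases hi : l = i
    · subst hi
      have := hμ.2 l hl
      have := hμ.2 j (by omega)
      omega
    · by_cases hj : l = j
      · subst hj
        have := hμ.2 l hl
        have := hμ.2 i (by omega)
        omega
      · rw [h1 l hi hj]; exact hμ.2 l hl
  induction μ using asc_ind generalizing k with
  | h0 μ hd => rw [Ep_dom v hd]; exact mon_mem hμ
  | h1 μ i j hij hlt ih =>
    rw [Ep_asc v hij hlt]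
    by_cases hk : (j : ℕ) = k
    · have hμ' : μ ∈ {ν : V n | (∀ l, 0 ≤ ν l) ∧ ∀ l : Fin n, (l : ℕ) < k + 1 → 1 ≤ ν l} := by
        refine ⟨hμ.1, fun l hl => ?_⟩
        by_cases hj : l = j
        · subst hj
          have := hμ.2 i (by unfold Adj at hij; omega)
          omega
        · exact hμ.2 l (by have : (l : ℕ) ≠ j := fun h => hj (Fin.ext h); omega)
      have s := seg (k + 1) i j hij (by omega)
      refine supported_mono ?_ (A_mem v hij.ne s (ih (k + 1) (s.sw_mem hμ')))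
      exact fun ν hν => ⟨hν.1, fun l hl => hν.2 l (by omega)⟩
    · have s := seg k i j hij hk
      exact A_mem v hij.ne s (ih k (s.sw_mem hμ))

lemma Ep_zero_base (v : R) {μ : V n} (h0 : ∀ l, 0 ≤ μ l) {k : Fin n} (hk : μ k = 0)
    (ha : ∀ a b, a ≠ k → b ≠ k → a ≤ b → μ b ≤ μ a) :
    Ep v μ - mon μ ∈ supp R (Ge (cw k) 1) := by
  induction μ using asc_ind generalizing k with
  | h0 μ hd => rw [Ep_dom v hd, sub_self]; exact zero_mem _
  | h1 μ i j hij hlt ih =>
    have hle : i ≤ j := by unfold Adj at hij; rw [Fin.le_def]; omega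
    have hik : i = k := by
      by_contra hik
      by_cases hjk : j = k
      · subst hjk; have := h0 i; omega
      · have := ha i j hik hjk hle; omega
    subst hik
    have h0' : ∀ l, 0 ≤ sw i j μ l := fun l => h0 _
    have ih' := ih h0' (k := j) (by simpa using hk) (by
      intro a b h1 h2 h3
      apply ha
      · intro h; exact h1 (by rw [Equiv.swap_apply_eq_iff] at h; simpa using h)
      · intro h; exact h2 (by rw [Equiv.swap_apply_eq_iff] at h; simpa using h)
      · unfold Adj at hij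
        simp only [Equiv.swap_apply_def, Fin.le_def, Fin.ext_iff, ne_eq] at *
        split_ifs <;> omega)
    have hm : Ep v (sw i j μ) ∈ supp R {ν : V n | ∀ l, 0 ≤ ν l} :=
      Ep_mem v (fun i j _ => seg_ge 0 i j) h0'
    have e1 : Ep v μ - mon μ = S i j (Ep v (sw i j μ) - mon (sw i j μ)) +
        C (1 - v) * D i j (Ep v (sw i j μ)) := by
      rw [Ep_asc v hij hlt, A_apply, map_sub, S_mon, sw_sw, map_sub, map_one]; ring
    rw [e1]
    refine add_mem (S_mem (fun ν hν => by simpa [mem_Ge] using hν) ih') (C_mul_mem _ (D_mem' hij.ne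
      (fun ν hν ρ _ _ h3 _ => ?_) hm))
    have := hν i
    have := hν j
    simp only [mem_Ge, cw_apply]; omega

lemma dom_cons0 {μ : V n} (h0 : ∀ l, μ l ≤ 0) (hd : Dom μ) : Dom (cons0 μ) := by
  intro i j hij
  unfold Adj at hij
  induction j using Fin.cases with
  | zero => simp at hij
  | succ j =>
    induction i using Fin.cases with
    | zero => simpa using h0 j
    | succ i => simpa using hd i j (by unfold Adj; simpa using hij)

lemma dom_snoc0 {μ : V n} (h0 : ∀ l, 0 ≤ μ l) (hd : Dom μ) : Dom (snoc0 μ) := by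
  intro i j hij
  unfold Adj at hij
  induction i using Fin.lastCases with
  | last => have := j.2; simp at hij; omega
  | cast i =>
    induction j using Fin.lastCases with
    | last => simpa using h0 i
    | cast j => simpa using hd i j (by unfold Adj; simpa using hij)

lemma rs_Em (v : R) {μ : V n} (h0 : ∀ l, μ l ≤ 0) : rs (Em v μ) = Em v (cons0 μ) :=
  Fam_nat (good_B v) (good_B v) (rs : L R n →ₐ[R] _).toRingHom cons0 Fin.succ
    (fun μ => ∀ l, μ l ≤ 0) (fun _ _ h => h.succ) (fun _ _ h f => rs_B v h f) rs_mon cons0_sw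
    cons0_succ (fun _ _ _ h _ => h _) (fun _ => dom_cons0) μ h0

lemma rc_Ep (v : R) {μ : V n} (h0 : ∀ l, 0 ≤ μ l) : rc (Ep v μ) = Ep v (snoc0 μ) :=
  Fam_nat (good_A v) (good_A v) (rc : L R n →ₐ[R] _).toRingHom snoc0 Fin.castSucc
    (fun μ => ∀ l, 0 ≤ μ l) (fun _ _ h => h.castSucc) (fun _ _ h f => rc_A v h f) rc_mon snoc0_sw
    snoc0_castSucc (fun _ _ _ h _ => h _) (fun _ => dom_snoc0) μ h0

lemma Ep_cons0 (v : R) {μ : V n} (h0 : ∀ l, 0 ≤ μ l) :
    Ep v (cons0 μ) - rs (Ep v μ) ∈ supp R (Ge (cw 0) 1) := by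
  induction μ using asc_ind with
  | h0 μ hd =>
    rw [Ep_dom v hd, rs_mon]
    refine Ep_zero_base v (fun l => Fin.cases (by simp) (fun i => h0 i) l) rfl ?_
    intro a b h1 h2 h3
    obtain ⟨a, rfl⟩ := Fin.exists_succ_eq.2 h1
    obtain ⟨b, rfl⟩ := Fin.exists_succ_eq.2 h2
    exact hd.anti a b (Fin.succ_le_succ_iff.1 h3)
  | h1 μ i j hij hlt ih =>
    rw [Ep_asc v hij hlt, Ep_asc v (μ := cons0 μ) hij.succ hlt, rs_A v hij, ← map_sub,
      ← cons0_sw]
    exact A_mem v hij.succ.ne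
      (seg_coord (fun x => 1 ≤ x) (Fin.succ_ne_zero i).symm (Fin.succ_ne_zero j).symm)
      (ih fun l => h0 _)

lemma Em_neg (v : R) {μ : V n} (h0 : ∀ l, μ l ≤ 0) :
    Em v μ ∈ supp R {ν : V n | (∀ l, ν l ≤ 0) ∧ ∀ l, μ l < 0 → ν l < 0} := by
  induction μ using asc_ind with
  | h0 μ hd => rw [Em_dom v hd]; exact mon_mem ⟨h0, fun _ h => h⟩
  | h1 μ i j hij hlt ih =>
    rw [Em_asc v hij hlt]
    have ih' := ih fun l => h0 _
    refine map_supp (B v i j) (fun ν hν => ?_) ih'
    have hj := h0 j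
    have h1 : ν j < 0 := hν.2 j (by simp only [sw_right]; omega)
    by_cases hz : μ j < 0
    · have h2 : ν i < 0 := hν.2 i (by simpa using hz)
      refine B_mem v hij.ne ?_ (mon_mem ⟨hν.1, fun l hl => ?_⟩)
      · intro ρ hρ ρ' a1 a2 a3 a4
        refine ⟨seg_le 0 i j ρ hρ.1 ρ' a1 a2 a3 a4, fun l hl => ?_⟩
        have := hρ.2 i (by omega)
        have := hρ.2 j hz
        by_cases hi : l = i
        · subst hi; omega
        · by_cases hj : l = j
          · subst hj; omega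
          · rw [a1 l hi hj]; exact hρ.2 l hl
      · by_cases hi : l = i
        · subst hi; exact h2
        · by_cases hj : l = j
          · subst hj; exact h1
          · exact hν.2 l (by rwa [sw_other hi hj])
    · have e1 : (mon ν : L R n) = Y j * mon (e j + ν) := by
        rw [Y, ← mon_add]; simp
      rw [e1, B_Y v hij.ne]
      have hm : A v i j (mon (e j + ν)) ∈
          supp R {ρ : V n | (∀ l, ρ l ≤ 0) ∧ ∀ l, l ≠ i → l ≠ j → ρ l = ν l} := by
        refine A_mem v hij.ne ?_ (mon_mem ⟨fun l => ?_, fun l _ hl => by simp [e_apply, hl]⟩)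
        · intro ρ hρ ρ' a1 a2 a3 a4
          exact ⟨seg_le 0 i j ρ hρ.1 ρ' a1 a2 a3 a4,
            fun l b1 b2 => (a1 l b1 b2).trans (hρ.2 l b1 b2)⟩
        · have := hν.1 l
          simp only [Pi.add_apply, e_apply]
          split_ifs with h
          · subst h; omega
          · omega
      refine mul_mem_supp (s := {-e i}) ?_ (mon_mem rfl) hm
      rintro _ rfl ρ hρ
      refine ⟨fun l => ?_, fun l hl => ?_⟩
      · have := hρ.1 l
        simp only [Pi.add_apply, Pi.neg_apply, e_apply]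
        split_ifs <;> omega
      · have := hρ.1 l
        simp only [Pi.add_apply, Pi.neg_apply, e_apply]
        split_ifs with h
        · omega
        · have hj : l ≠ j := fun h => hz (h ▸ hl)
          rw [hρ.2 l h hj]
          have := hν.2 l (by rwa [sw_other h hj])
          omega

lemma B_mon_asc (v : R) {i j : Fin n} (hij : i ≠ j) {μ : V n} (h : μ i < μ j) :
    mon μ - B v i j (mon (sw i j μ)) ∈
      supp R {ν | ∃ k : ℤ, μ i - μ j < k ∧ k < 0 ∧ ν = μ + k • (e j - e i)} := by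
  obtain ⟨d, hd⟩ : ∃ d : ℕ, μ j - μ i = d + 1 := ⟨(μ j - μ i - 1).toNat, by omega⟩
  have e1 : mon μ - B v i j (mon (sw i j μ)) =
      C (v - 1) * ∑ k ∈ range d, mon (sw i j μ + ((k + 1 : ℕ) : ℤ) • (e j - e i)) := by
    rw [B_apply, A_apply, S_mon, sw_sw, D_mon, Dm, sw_left, sw_right, hd,
      show μ i - μ j = -((d : ℤ) + 1) by omega, show ((d : ℤ) + 1).toNat = d + 1 by omega,
      show (-((d : ℤ) + 1)).toNat = 0 by omega, sum_range_succ']
    simp only [range_zero, sum_empty, Nat.cast_zero, zero_smul, add_zero, map_sub, map_one]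
    ring
  rw [e1]
  refine C_mul_mem _ (Submodule.sum_mem _ fun k hk => mon_mem ⟨μ i - μ j + (k + 1), ?_, ?_, ?_⟩)
  · omega
  · rw [mem_range] at hk; omega
  · rw [sw_eq_add hij, add_smul, add_assoc]; push_cast; rfl

lemma Em_span (v : R) {f : L R n} (hf : f ∈ supp R {ν : V n | ∀ l, ν l ≤ 0}) :
    f ∈ Submodule.span R (Em v '' {ν : V n | ∀ l, ν l ≤ 0}) := by
  set U := Submodule.span R (Em v '' {ν : V n | ∀ l, ν l ≤ 0})
  have hE : ∀ μ : V n, (∀ l, μ l ≤ 0) → Em v μ ∈ U := fun μ h =>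
    Submodule.subset_span ⟨μ, h, rfl⟩
  have hB : ∀ i j, Adj i j → ∀ g ∈ U, B v i j g ∈ U := by
    intro i j hij g hg
    induction hg using Submodule.span_induction with
    | mem x hx =>
      obtain ⟨μ, hμ, rfl⟩ := hx
      rcases lt_trichotomy (μ i) (μ j) with h | h | h
      · rw [Em_asc v hij h, B_B v hij.ne, ← Em_asc v hij h, ← map_one C, ← map_sub]
        exact add_mem (C_mul_mem _ (hE μ hμ)) (C_mul_mem _ (hE _ fun l => hμ _))
      · rw [Em_tie v hij h]; exact C_mul_mem _ (hE μ hμ)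
      · rw [Em_desc v hij h]; exact hE _ fun l => hμ _
    | zero => simp
    | add x y _ _ hx hy => rw [map_add]; exact add_mem hx hy
    | smul r x _ hx => rw [map_smul]; exact U.smul_mem r hx
  have hm : ∀ μ : V n, (∀ l, μ l ≤ 0) → mon μ ∈ U := by
    intro μ
    induction μ using meas_ind with
    | _ μ ih =>
      intro hμ
      rcases dom_or_asc μ with h | ⟨i, j, hij, h⟩
      · rw [← Em_dom v h]; exact hE μ hμ
      · have h1 := hB i j hij _ (ih _ (meas_sw_lt hij h) fun l => hμ _)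
        have h2 : mon μ - B v i j (mon (sw i j μ)) ∈ U := by
          refine map_supp LinearMap.id ?_ (B_mon_asc v hij.ne h)
          rintro _ ⟨k, k1, k2, rfl⟩
          refine ih _ (meas_pt_lt hij k1.le k2) fun l => ?_
          have := hμ i
          have := hμ j
          have := hμ l
          rw [pt_apply hij.ne]; split_ifs <;> omega
        simpa using add_mem h2 h1
  exact map_supp LinearMap.id hm hf

end Pool.Agent.Lib.MP_a77f20_co
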