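import Pool.Agent.Lib.MP_a77f20_co.Basic

namespace Pool.Agent.Lib.MP_a77f20_co

open AddMonoidAlgebra Finset

variable {R : Type*} [CommRing R] {n : ℕ}

def Adj (i j : Fin n) : Prop := (j : ℕ) = i + 1

lemma Adj.ne {i j : Fin n} (h : Adj i j) : i ≠ j := by
  intro h'; subst h'; unfold Adj at h; omega

lemma pt_apply {i j : Fin n} (hij : i ≠ j) (μ : V n) (k : ℤ) (l : Fin n) :
    (μ + k • (e j - e i)) l = if l = i then μ i - k else if l = j then μ j + k else μ l := by
  simp only [Pi.add_apply, Pi.smul_apply, Pi.sub_apply, e_apply, smul_eq_mul]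
  split_ifs with h1 h2 h3
  · exact absurd (h2.symm.trans h1) hij
  · subst h1; ring
  · subst h3; ring
  · ring

def measZ (μ : V n) : ℤ := ∑ k : Fin n, ((n : ℤ) * μ k ^ 2 + (k : ℕ) * μ k)

def meas (μ : V n) : ℕ := (measZ μ).toNat

lemma measZ_nonneg (μ : V n) : 0 ≤ measZ μ := by
  refine sum_nonneg fun k _ => ?_
  have h1 : ((k : ℕ) : ℤ) ≤ n := by exact_mod_cast k.2.le
  have h2 : (0 : ℤ) ≤ (k : ℕ) := Int.natCast_nonneg _
  rcases le_or_gt 0 (μ k) with h | h
  · positivity
  · have : μ k ≤ -1 := by omega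
    nlinarith [mul_nonneg h2 (sub_nonneg.2 this), mul_nonneg (sub_nonneg.2 h1) (sq_nonneg (μ k))]

lemma sum_two {M : Type*} [AddCommGroup M] {i j : Fin n} (hij : i ≠ j) (f g : Fin n → M)
    (h : ∀ l, l ≠ i → l ≠ j → f l = g l) :
    ∑ l, f l = ∑ l, g l + (f i - g i) + (f j - g j) := by
  have : ∑ l, (f l - g l) = (f i - g i) + (f j - g j) :=
    Fintype.sum_eq_add i j hij (fun l hl => sub_eq_zero.2 (h l hl.1 hl.2))
  rw [sum_sub_distrib] at this
  rw [add_assoc, ← this]; abel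

lemma meas_pt_lt {i j : Fin n} (hij : Adj i j) {μ : V n} {k : ℤ} (h1 : μ i - μ j ≤ k)
    (h2 : k < 0) : meas (μ + k • (e j - e i)) < meas μ := by
  have hlt : measZ (μ + k • (e j - e i)) < measZ μ := by
    unfold measZ
    rw [sum_two hij.ne _ (fun l : Fin n => (n : ℤ) * μ l ^ 2 + (l : ℕ) * μ l)
      (fun l hi hj => by simp only [pt_apply hij.ne, hi, hj, if_false])]
    simp only [pt_apply hij.ne, hij.ne.symm, if_false, if_true]
    have hj : ((j : ℕ) : ℤ) = (i : ℕ) + 1 := by exact_mod_cast hij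
    rw [hj]
    have hn : (0 : ℤ) ≤ n := Int.natCast_nonneg _
    nlinarith [mul_nonneg hn (mul_nonneg (sub_nonneg.2 h1) (neg_nonneg.2 h2.le))]
  have := measZ_nonneg (μ + k • (e j - e i))
  unfold meas; omega

lemma meas_sw_lt {i j : Fin n} (hij : Adj i j) {μ : V n} (h : μ i < μ j) :
    meas (sw i j μ) < meas μ := by
  rw [sw_eq_add hij.ne]; exact meas_pt_lt hij le_rfl (by omega)

def Dom (μ : V n) : Prop := ∀ i j, Adj i j → μ j ≤ μ i

lemma Dom.anti {μ : V n} (h : Dom μ) : ∀ a b : Fin n, a ≤ b → μ b ≤ μ a := by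
  have : ∀ d : ℕ, ∀ a b : Fin n, (b : ℕ) = a + d → μ b ≤ μ a := by
    intro d
    induction d with
    | zero => intro a b hab; rw [show b = a from Fin.ext hab]
    | succ d ih =>
      intro a b hab
      exact (h ⟨a + d, by omega⟩ b (by simp [Adj]; omega)).trans (ih a _ rfl)
  intro a b hab
  exact this (b - a) a b (by have : (a : ℕ) ≤ b := hab; omega)

lemma dom_or_asc (μ : V n) : Dom μ ∨ ∃ i j, Adj i j ∧ μ i < μ j := by
  by_contra h
  push Not at h
  exact h.1 h.2

lemma meas_ind {P : V n → Prop} (h : ∀ μ, (∀ ν, meas ν < meas μ → P ν) → P μ) (μ : V n) :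
    P μ := by
  induction hm : meas μ using Nat.strong_induction_on generalizing μ with
  | _ k ih => exact h μ fun ν hν => ih _ (hm ▸ hν) ν rfl

lemma asc_ind {P : V n → Prop} (h0 : ∀ μ, Dom μ → P μ)
    (h1 : ∀ μ i j, Adj i j → μ i < μ j → P (sw i j μ) → P μ) (μ : V n) : P μ := by
  induction μ using meas_ind with
  | _ μ ih =>
    rcases dom_or_asc μ with h | ⟨i, j, hij, h⟩
    · exact h0 μ h
    · exact h1 μ i j hij h (ih _ (meas_sw_lt hij h))

abbrev Op (R : Type*) [CommRing R] (n : ℕ) := Fin n → Fin n → L R n →ₗ[R] L R n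

open Classical in
noncomputable def Fam (O : Op R n) (μ : V n) : L R n :=
  if h : ∃ p : Fin n × Fin n, Adj p.1 p.2 ∧ μ p.1 < μ p.2 then
    O h.choose.1 h.choose.2 (Fam O (sw h.choose.1 h.choose.2 μ))
  else mon μ
termination_by meas μ
decreasing_by exact meas_sw_lt h.choose_spec.1 h.choose_spec.2

lemma Fam_dom (O : Op R n) {μ : V n} (h : Dom μ) : Fam O μ = mon μ := by
  rw [Fam, dif_neg]
  rintro ⟨p, h1, h2⟩
  exact absurd (h _ _ h1) (not_le.2 h2)

structure Good (O : Op R n) : Prop where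
  comm : ∀ {i j k l : Fin n}, i ≠ j → k ≠ l → i ≠ k → i ≠ l → j ≠ k → j ≠ l →
    ∀ f, O i j (O k l f) = O k l (O i j f)
  braid : ∀ {i j k : Fin n}, i ≠ j → j ≠ k → i ≠ k →
    ∀ f, O i j (O j k (O i j f)) = O j k (O i j (O j k f))
  mul : ∀ {i j : Fin n}, i ≠ j → ∀ {g : L R n}, S i j g = g → ∀ f, O i j (g * f) = g * O i j f

lemma good_A (v : R) : Good (A v : Op R n) := ⟨A_comm v, A_braid v, A_mul v⟩
lemma good_B (v : R) : Good (B v : Op R n) := ⟨B_comm v, B_braid v, B_mul v⟩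

lemma sw_comm {i j k l : Fin n} (hik : i ≠ k) (hil : i ≠ l) (hjk : j ≠ k) (hjl : j ≠ l)
    (μ : V n) : sw k l (sw i j μ) = sw i j (sw k l μ) := by
  funext a
  simp only [sw_apply]
  split_ifs <;> simp_all

lemma sw_braid {i j k : Fin n} (hij : i ≠ j) (hjk : j ≠ k) (hik : i ≠ k) (μ : V n) :
    sw i j (sw j k (sw i j μ)) = sw j k (sw i j (sw j k μ)) := by
  funext a
  simp only [sw_apply]
  split_ifs <;> simp_all

lemma Fam_asc {O : Op R n} (hO : Good O) {μ : V n} {i j : Fin n} (hij : Adj i j)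
    (h : μ i < μ j) : Fam O μ = O i j (Fam O (sw i j μ)) := by
  induction μ using meas_ind generalizing i j with
  | _ μ ih =>
    have key : ∀ i j a b : Fin n, Adj i j → Adj a b → μ i < μ j → μ a < μ b → (i : ℕ) < a →
        O i j (Fam O (sw i j μ)) = O a b (Fam O (sw a b μ)) := by
      intro i j a b hij hab h1 h2 hlt
      have m1 := meas_sw_lt hij h1
      have m2 := meas_sw_lt hab h2
      have hia : i ≠ a := fun h => by subst h; omega
      have hib : i ≠ b := fun h => by subst h; unfold Adj at hab; omega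
      have hjb : j ≠ b := fun h => by subst h; unfold Adj at *; omega
      by_cases hja : j = a
      · subst hja
        have s1 : sw i j μ j < sw i j μ b := by
          rw [sw_right, sw_other hib.symm hjb.symm]; omega
        have s2 : sw j b (sw i j μ) i < sw j b (sw i j μ) j := by
          rw [sw_left, sw_other hia hib, sw_left, sw_other hib.symm hjb.symm]; omega
        have s3 : sw j b μ i < sw j b μ j := by
          rw [sw_left, sw_other hia hib]; omega
        have s4 : sw i j (sw j b μ) j < sw i j (sw j b μ) b := by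
          rw [sw_right, sw_other hib.symm hjb.symm, sw_right, sw_other hia hib]; omega
        rw [ih _ m1 hab s1, ih _ ((meas_sw_lt hab s1).trans m1) hij s2, ih _ m2 hij s3,
          ih _ ((meas_sw_lt hij s3).trans m2) hab s4, sw_braid hia hjb hib,
          hO.braid hia hjb hib]
      · have s1 : sw i j μ a < sw i j μ b := by
          rw [sw_other hia.symm (Ne.symm hja), sw_other hib.symm hjb.symm]; exact h2
        have s2 : sw a b μ i < sw a b μ j := by
          rw [sw_other hia hib, sw_other hja hjb]; exact h1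
        rw [ih _ m1 hab s1, ih _ m2 hij s2, sw_comm hia hib hja hjb,
          hO.comm hij.ne hab.ne hia hib hja hjb]
    have hex : ∃ p : Fin n × Fin n, Adj p.1 p.2 ∧ μ p.1 < μ p.2 := ⟨(i, j), hij, h⟩
    rw [Fam, dif_pos hex]
    obtain ⟨h1, h2⟩ := hex.choose_spec
    generalize hex.choose = p at h1 h2
    obtain ⟨a, b⟩ := p
    rcases lt_trichotomy (i : ℕ) a with hl | hl | hl
    · exact (key i j a b hij h1 h h2 hl).symm
    · have e1 : a = i := Fin.ext hl.symm
      have e2 : b = j := Fin.ext (by unfold Adj at *; simp only at h1; omega)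
      subst e1 e2; rfl
    · exact key a b i j h1 hij h2 h hl

lemma Fam_desc {O : Op R n} (hO : Good O) {μ : V n} {i j : Fin n} (hij : Adj i j)
    (h : μ j < μ i) : O i j (Fam O μ) = Fam O (sw i j μ) := by
  rw [Fam_asc hO (μ := sw i j μ) hij (by simpa using h), sw_sw]

lemma Fam_tie {O : Op R n} (hO : Good O) {κ : L R n} (hκ : ∀ i j, S i j κ = κ)
    (h1 : ∀ i j, Adj i j → O i j 1 = κ) {μ : V n} {i j : Fin n} (hij : Adj i j)
    (h : μ i = μ j) : O i j (Fam O μ) = κ * Fam O μ := by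
  induction μ using meas_ind generalizing i j with
  | _ μ ih =>
    rcases dom_or_asc μ with hd | ⟨a, b, hab, hlt⟩
    · rw [Fam_dom O hd]
      have := hO.mul hij.ne (g := mon μ) (by rw [S_mon, sw_eq_self h]) 1
      rw [mul_one, h1 i j hij] at this
      rw [this, mul_comm]
    · have m1 := meas_sw_lt hab hlt
      have hai : a ≠ i := by
        intro h'; subst h'
        have : b = j := Fin.ext (by unfold Adj at *; omega)
        subst this; omega
      have hbj : b ≠ j := by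
        intro h'; subst h'
        exact hai (Fin.ext (by unfold Adj at *; omega))
      by_cases hbi : b = i
      · subst hbi
        have haj : a ≠ j := fun h => by subst h; unfold Adj at *; omega
        have s1 : sw a b μ b < sw a b μ j := by
          rw [sw_right, sw_other haj.symm hbj.symm]; omega
        have s2 : sw b j (sw a b μ) a = sw b j (sw a b μ) b := by
          rw [sw_left, sw_other hai haj, sw_left, sw_other haj.symm hbj.symm]; omega
        rw [Fam_asc hO hab hlt, Fam_asc hO hij s1, ← hO.braid hai hbj haj,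
          ih _ ((meas_sw_lt hij s1).trans m1) hab s2, hO.mul hbj (hκ _ _), hO.mul hai (hκ _ _)]
      · by_cases haj : a = j
        · subst haj
          have s1 : sw a b μ i < sw a b μ a := by
            rw [sw_left, sw_other hai.symm (Ne.symm hbi)]; omega
          have s2 : sw i a (sw a b μ) a = sw i a (sw a b μ) b := by
            rw [sw_right, sw_other hbi hbj, sw_right, sw_other hai.symm (Ne.symm hbi)]; omega
          rw [Fam_asc hO hab hlt, Fam_asc hO hij s1, hO.braid hai.symm hbj.symm (Ne.symm hbi),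
            ih _ ((meas_sw_lt hij s1).trans m1) hab s2, hO.mul hai.symm (hκ _ _),
            hO.mul hbj.symm (hκ _ _)]
        · have s1 : sw a b μ i = sw a b μ j := by
            rw [sw_other hai.symm (Ne.symm hbi), sw_other (Ne.symm haj) hbj.symm]; exact h
          rw [Fam_asc hO hab hlt,
            hO.comm hij.ne hab.ne hai.symm (Ne.symm hbi) (Ne.symm haj) hbj.symm,
            ih _ m1 hij s1, hO.mul hab.ne (hκ _ _)]

def cst (c : ℤ) : V n := fun _ => c

lemma Fam_shift {O : Op R n} (hO : Good O) (c : ℤ) (μ : V n) :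
    Fam O (μ + cst c) = mon (cst c) * Fam O μ := by
  induction μ using asc_ind with
  | h0 μ h =>
    rw [Fam_dom O h, Fam_dom O, mon_add, mul_comm]
    intro i j hij
    have := h i j hij
    simp only [Pi.add_apply, cst]; omega
  | h1 μ i j hij h ih =>
    rw [Fam_asc hO hij h, ← hO.mul hij.ne (by rw [S_mon]; rfl), ← ih,
      Fam_asc hO (μ := μ + cst c) hij (by simpa [cst] using h)]
    rfl

lemma Fam_nat {R' : Type*} [CommRing R'] {n' : ℕ} {O : Op R n} {O' : Op R' n'} (hO : Good O)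
    (hO' : Good O') (Φ : L R n →+* L R' n') (φ : V n → V n') (ι : Fin n → Fin n')
    (Q : V n → Prop) (hι : ∀ i j, Adj i j → Adj (ι i) (ι j))
    (hΦ : ∀ i j, Adj i j → ∀ f, Φ (O i j f) = O' (ι i) (ι j) (Φ f))
    (hm : ∀ μ, Φ (mon μ) = mon (φ μ))
    (hs : ∀ i j μ, φ (sw i j μ) = sw (ι i) (ι j) (φ μ)) (hφ : ∀ μ i, φ μ (ι i) = μ i)
    (hQ : ∀ i j μ, Q μ → Q (sw i j μ)) (hD : ∀ μ, Q μ → Dom μ → Dom (φ μ))
    (μ : V n) (hμ : Q μ) : Φ (Fam O μ) = Fam O' (φ μ) := by
  induction μ using asc_ind with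
  | h0 μ h => rw [Fam_dom O h, Fam_dom O' (hD μ hμ h), hm]
  | h1 μ i j hij h ih =>
    rw [Fam_asc hO hij h, hΦ i j hij, ih (hQ _ _ _ hμ), hs,
      ← Fam_asc hO' (hι i j hij) (by rwa [hφ, hφ])]

def Seg (s : Set (V n)) (i j : Fin n) : Prop :=
  ∀ μ ∈ s, ∀ ν : V n, (∀ l, l ≠ i → l ≠ j → ν l = μ l) → ν i + ν j = μ i + μ j →
    min (μ i) (μ j) ≤ ν i → ν i ≤ max (μ i) (μ j) → ν ∈ s

lemma Seg.sw_mem {s : Set (V n)} {i j : Fin n} (h : Seg s i j) {μ : V n} (hμ : μ ∈ s) :
    sw i j μ ∈ s :=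
  h μ hμ _ (fun l h1 h2 => sw_other h1 h2 μ) (by simp [add_comm]) (by simp) (by simp)

lemma D_mem' {s t : Set (V n)} {i j : Fin n} (hij : i ≠ j)
    (h : ∀ μ ∈ s, ∀ ν : V n, (∀ l, l ≠ i → l ≠ j → ν l = μ l) → ν i + ν j = μ i + μ j →
      min (μ i) (μ j) < ν i → ν i ≤ max (μ i) (μ j) → ν ∈ t) {f : L R n}
    (hf : f ∈ supp R s) : D i j f ∈ supp R t := by
  refine map_supp (D i j) (fun μ hμ => D_mon_mem fun k hk => mon_mem (h μ hμ _ ?_ ?_ ?_ ?_)) hf
  · intro l h1 h2; simp only [pt_apply hij, h1, h2, if_false]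
  · simp only [pt_apply hij, hij.symm, if_false, if_true]; ring
  · simp only [pt_apply hij, if_true]; omega
  · simp only [pt_apply hij, if_true]; omega

lemma S_mem {s t : Set (V n)} {i j : Fin n} (h : ∀ μ ∈ s, sw i j μ ∈ t) {f : L R n}
    (hf : f ∈ supp R s) : S i j f ∈ supp R t :=
  map_supp (S i j).toLinearMap (fun μ hμ => by simpa using mon_mem (h μ hμ)) hf

lemma A_mem (v : R) {s : Set (V n)} {i j : Fin n} (hij : i ≠ j) (h : Seg s i j) {f : L R n}
    (hf : f ∈ supp R s) : A v i j f ∈ supp R s := by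
  change S i j f + (1 - v) • D i j f ∈ _
  exact add_mem (S_mem (fun μ hμ => h.sw_mem hμ) hf)
    (Submodule.smul_mem _ _ (D_mem' hij (fun μ hμ ν h1 h2 h3 h4 => h μ hμ ν h1 h2 h3.le h4) hf))

lemma B_mem (v : R) {s : Set (V n)} {i j : Fin n} (hij : i ≠ j) (h : Seg s i j) {f : L R n}
    (hf : f ∈ supp R s) : B v i j f ∈ supp R s := by
  change A v i j f + (v - 1) • f ∈ _
  exact add_mem (A_mem v hij h hf) (Submodule.smul_mem _ _ hf)

noncomputable def Ep (v : R) : V n → L R n := Fam (A v)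
noncomputable def Em (v : R) : V n → L R n := Fam (B v)

lemma Ep_dom (v : R) {μ : V n} (h : Dom μ) : Ep v μ = mon μ := Fam_dom _ h
lemma Em_dom (v : R) {μ : V n} (h : Dom μ) : Em v μ = mon μ := Fam_dom _ h
lemma Ep_asc (v : R) {μ : V n} {i j : Fin n} (hij : Adj i j) (h : μ i < μ j) :
    Ep v μ = A v i j (Ep v (sw i j μ)) := Fam_asc (good_A v) hij h
lemma Em_asc (v : R) {μ : V n} {i j : Fin n} (hij : Adj i j) (h : μ i < μ j) :
    Em v μ = B v i j (Em v (sw i j μ)) := Fam_asc (good_B v) hij h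
lemma Ep_desc (v : R) {μ : V n} {i j : Fin n} (hij : Adj i j) (h : μ j < μ i) :
    A v i j (Ep v μ) = Ep v (sw i j μ) := Fam_desc (good_A v) hij h
lemma Em_desc (v : R) {μ : V n} {i j : Fin n} (hij : Adj i j) (h : μ j < μ i) :
    B v i j (Em v μ) = Em v (sw i j μ) := Fam_desc (good_B v) hij h
lemma Ep_tie (v : R) {μ : V n} {i j : Fin n} (hij : Adj i j) (h : μ i = μ j) :
    A v i j (Ep v μ) = Ep v μ := by
  have := Fam_tie (good_A v) (κ := 1) (by simp)
    (fun i j hij => A_symm v hij.ne (by simp)) hij h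
  rwa [one_mul] at this
lemma Em_tie (v : R) {μ : V n} {i j : Fin n} (hij : Adj i j) (h : μ i = μ j) :
    B v i j (Em v μ) = C v * Em v μ :=
  Fam_tie (good_B v) (κ := C v) (by simp)
    (fun i j hij => by rw [B_apply, A_symm v hij.ne (by simp)]; ring) hij h
lemma Ep_shift (v : R) (c : ℤ) (μ : V n) : Ep v (μ + cst c) = mon (cst c) * Ep v μ :=
  Fam_shift (good_A v) c μ
lemma Em_shift (v : R) (c : ℤ) (μ : V n) : Em v (μ + cst c) = mon (cst c) * Em v μ :=
  Fam_shift (good_B v) c μ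

lemma Ep_mem (v : R) {s : Set (V n)} (h : ∀ i j, Adj i j → Seg s i j) {μ : V n} (hμ : μ ∈ s) :
    Ep v μ ∈ supp R s := by
  induction μ using asc_ind with
  | h0 μ hd => rw [Ep_dom v hd]; exact mon_mem hμ
  | h1 μ i j hij hlt ih =>
    rw [Ep_asc v hij hlt]; exact A_mem v hij.ne (h i j hij) (ih ((h i j hij).sw_mem hμ))

lemma Em_mem (v : R) {s : Set (V n)} (h : ∀ i j, Adj i j → Seg s i j) {μ : V n} (hμ : μ ∈ s) :
    Em v μ ∈ supp R s := by
  induction μ using asc_ind with
  | h0 μ hd => rw [Em_dom v hd]; exact mon_mem hμ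
  | h1 μ i j hij hlt ih =>
    rw [Em_asc v hij hlt]; exact B_mem v hij.ne (h i j hij) (ih ((h i j hij).sw_mem hμ))

lemma seg_ge (b : ℤ) (i j : Fin n) : Seg {μ : V n | ∀ l, b ≤ μ l} i j := by
  intro μ hμ ν h1 h2 h3 h4 l
  have hi := hμ i
  have hj := hμ j
  by_cases hl : l = i
  · subst hl; omega
  · by_cases hl' : l = j
    · subst hl'; omega
    · rw [h1 l hl hl']; exact hμ l

lemma seg_le (b : ℤ) (i j : Fin n) : Seg {μ : V n | ∀ l, μ l ≤ b} i j := by
  intro μ hμ ν h1 h2 h3 h4 l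
  have hi := hμ i
  have hj := hμ j
  by_cases hl : l = i
  · subst hl; omega
  · by_cases hl' : l = j
    · subst hl'; omega
    · rw [h1 l hl hl']; exact hμ l

lemma seg_sum (d : ℤ) {i j : Fin n} (hij : i ≠ j) : Seg {μ : V n | ∑ l, μ l = d} i j := by
  intro μ hμ ν h1 h2 _ _
  have := sum_two hij ν μ h1
  simp only [Set.mem_ofPred_eq] at hμ ⊢
  omega

lemma seg_coord (P : ℤ → Prop) {i j k : Fin n} (hi : k ≠ i) (hj : k ≠ j) :
    Seg {μ : V n | P (μ k)} i j := by
  intro μ hμ ν h1 _ _ _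
  simp only [Set.mem_ofPred_eq] at hμ ⊢
  rwa [h1 k hi hj]

lemma Seg.inter {s t : Set (V n)} {i j : Fin n} (hs : Seg s i j) (ht : Seg t i j) :
    Seg (s ∩ t) i j :=
  fun μ hμ ν h1 h2 h3 h4 => ⟨hs μ hμ.1 ν h1 h2 h3 h4, ht μ hμ.2 ν h1 h2 h3 h4⟩

end Pool.Agent.Lib.MP_a77f20_co
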