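import Pool.Agent.Lib.MP_a77f20_co.Cauchy
import Pool.Agent.Lib.MP_a77f20_co.Defs

namespace Pool.Agent.Lib.MP_a77f20_co

open Finset

variable {n : ℕ}

lemma dyck_finite (m n : ℕ) : (dyckWords m n).Finite := by
  refine (Set.Finite.pi' (fun _ : Fin n => Set.finite_Icc (0 : ℤ) (m * n))).subset ?_
  rintro γ ⟨h0, h1, h2⟩ i
  refine ⟨h1 i, ?_⟩
  have : ∀ k : ℕ, ∀ i : Fin n, (i : ℕ) = k → γ i ≤ m * k := by
    intro k
    induction k with
    | zero => intro i hi; simp [h0 i hi]
    | succ k ih =>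
      intro i hi
      have := h2 ⟨k, by omega⟩ i hi
      have := ih ⟨k, by omega⟩ rfl
      push_cast; linarith
  refine (this i i rfl).trans ?_
  have : ((i : ℕ) : ℤ) ≤ n := by exact_mod_cast i.2.le
  exact mul_le_mul_of_nonneg_left this (Int.natCast_nonneg m)

lemma sc_eq (m : ℕ) (x y : ℤ) : sc m (x - y) = hp x (x + m) y (y + m) := by
  unfold sc hp; split_ifs <;> omega

lemma sc_nonneg (m : ℕ) (x : ℤ) : 0 ≤ sc m x := by
  unfold sc; split_ifs <;> omega

lemma dinv_nonneg (m : ℕ) (γ : Fin n → ℤ) : 0 ≤ dinv m γ :=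
  sum_nonneg fun i _ => sum_nonneg fun j _ => by
    split_ifs
    · exact sc_nonneg _ _
    · rfl

lemma mem_dyck_cons0 {m : ℕ} {a : V n} :
    cons0 a ∈ dyckWords m (n + 1) ↔
      (∀ l, 0 ≤ a l) ∧ ∀ l, snoc0 a l ≤ cons0 a l + m := by
  constructor
  · rintro ⟨-, h1, h2⟩
    refine ⟨fun l => h1 l.succ, fun l => ?_⟩
    induction l using Fin.lastCases with
    | last => have := h1 (Fin.last n); simp only [snoc0_last]; omega
    | cast l => simpa using h2 l.castSucc l.succ (by simp)
  · rintro ⟨h1, h2⟩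
    refine ⟨fun i hi => by rw [show i = 0 from Fin.ext hi]; rfl,
      fun l => Fin.cases (by simp) (fun i => h1 i) l, fun i j hij => ?_⟩
    induction j using Fin.cases with
    | zero => simp at hij
    | succ j =>
      have : i = j.castSucc := Fin.ext (by simpa using hij.symm)
      subst this
      simpa using h2 j.castSucc

def Pm (g : ℤ → ℤ → ℤ) (x y : V n) : ℤ := ∑ a, ∑ b, if a < b then g (x a) (y b) else 0

lemma hh_Pm (α β : V n) :
    hh α β = Pm (fun x y => min x (y + 1)) β β - Pm (fun x y => min x (y + 1)) α β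
      - Pm min β α + Pm min α α := by
  simp only [hh, Pm, ← sum_sub_distrib, ← sum_add_distrib]
  refine sum_congr rfl fun a _ => sum_congr rfl fun b _ => ?_
  split_ifs <;> simp [hp]

lemma sum_lt_succ (G : Fin (n + 1) → Fin n → ℤ) :
    (∑ i, ∑ j, if i < j.succ then G i j else 0) =
      (∑ i, ∑ j, if i < j.castSucc then G i j else 0) + ∑ j, G j.castSucc j := by
  have : ∑ j, G j.castSucc j = ∑ i, ∑ j, if i = j.castSucc then G i j else 0 := by
    rw [sum_comm]; simp
  rw [this, ← sum_add_distrib]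
  refine sum_congr rfl fun i _ => ?_
  rw [← sum_add_distrib]
  refine sum_congr rfl fun j _ => ?_
  simp only [Fin.lt_def, Fin.ext_iff, Fin.val_succ, Fin.val_castSucc]
  split_ifs <;> omega

lemma sum_castSucc_lt (G : Fin n → Fin (n + 1) → ℤ) :
    (∑ i, ∑ j, if i.castSucc < j then G i j else 0) =
      (∑ i, ∑ j, if i.succ < j then G i j else 0) + ∑ i, G i i.succ := by
  have : ∑ i, G i i.succ = ∑ i, ∑ j, if j = i.succ then G i j else 0 := by simp
  rw [this, ← sum_add_distrib]
  refine sum_congr rfl fun i _ => ?_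
  rw [← sum_add_distrib]
  refine sum_congr rfl fun j _ => ?_
  simp only [Fin.lt_def, Fin.ext_iff, Fin.val_succ, Fin.val_castSucc]
  split_ifs <;> omega

lemma hh_dinv {m : ℕ} {a : V n} (h1 : ∀ l, 0 ≤ a l) (h2 : ∀ l, snoc0 a l ≤ cons0 a l + m) :
    hh (snoc0 a) (cons0 a + cst m) = dinv m (cons0 a) := by
  have e0 : dinv m (cons0 a) = hh (cons0 a) (cons0 a + cst m) := by
    simp only [dinv, hh, sc_eq, Pi.add_apply, cst]
  have hl : ∀ i : Fin (n + 1), ¬ Fin.last n < i := fun i => not_lt.2 (Fin.le_last _)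
  have hb : ∀ l, 0 ≤ (cons0 a + cst m : V (n + 1)) l := fun l => by
    have : 0 ≤ cons0 a l := Fin.cases (by simp) (fun i => h1 i) l
    simp only [Pi.add_apply, cst]; omega
  have e2 : Pm (fun x y => min x (y + 1)) (snoc0 a) (cons0 a + cst m) =
      Pm (fun x y => min x (y + 1)) (cons0 a) (cons0 a + cst m) + ∑ l, a l := by
    have f1 : Pm (fun x y => min x (y + 1)) (snoc0 a) (cons0 a + cst m) = ∑ i : Fin n, ∑ j,
        if i.castSucc < j then min (a i) ((cons0 a + cst m : V (n + 1)) j + 1) else 0 := by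
      unfold Pm
      rw [Fin.sum_univ_castSucc]
      simp only [hl, if_false, sum_const_zero, add_zero, snoc0_castSucc]
    have f2 : Pm (fun x y => min x (y + 1)) (cons0 a) (cons0 a + cst m) = ∑ i : Fin n, ∑ j,
        if i.succ < j then min (a i) ((cons0 a + cst m : V (n + 1)) j + 1) else 0 := by
      unfold Pm
      rw [Fin.sum_univ_succ, sum_eq_zero (fun j _ => by
        have := hb j
        simp only [cons0_zero]
        split_ifs <;> omega), zero_add]
      simp only [cons0_succ]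
    rw [f1, f2, sum_castSucc_lt]
    congr 1
    refine sum_congr rfl fun i _ => ?_
    simp only [Pi.add_apply, cons0_succ, cst]; omega
  have e3 : Pm min (cons0 a + cst m) (snoc0 a) + ∑ l, a l =
      Pm min (cons0 a + cst m) (cons0 a) := by
    have f1 : Pm min (cons0 a + cst m) (snoc0 a) = ∑ i, ∑ j : Fin n,
        if i < j.castSucc then min ((cons0 a + cst m : V (n + 1)) i) (a j) else 0 := by
      refine sum_congr rfl fun i _ => ?_
      rw [Fin.sum_univ_castSucc]
      have := hb i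
      simp only [snoc0_castSucc, snoc0_last]
      split_ifs <;> omega
    have f2 : Pm min (cons0 a + cst m) (cons0 a) = ∑ i, ∑ j : Fin n,
        if i < j.succ then min ((cons0 a + cst m : V (n + 1)) i) (a j) else 0 := by
      refine sum_congr rfl fun i _ => ?_
      rw [Fin.sum_univ_succ]
      simp
    rw [f1, f2, sum_lt_succ]
    congr 1
    refine sum_congr rfl fun j _ => ?_
    have := h2 j.castSucc
    simp only [snoc0_castSucc] at this
    simp only [Pi.add_apply, cst]; omega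
  have e4 : Pm min (snoc0 a) (snoc0 a) = Pm min (cons0 a) (cons0 a) := by
    have f1 : Pm min (snoc0 a) (snoc0 a) = Pm min a a := by
      unfold Pm
      rw [Fin.sum_univ_castSucc]
      simp [hl, Fin.sum_univ_castSucc, h1]
    have f2 : Pm min (cons0 a) (cons0 a) = Pm min a a := by
      unfold Pm
      rw [Fin.sum_univ_succ]
      simp [Fin.sum_univ_succ, h1]
    rw [f1, f2]
  rw [e0, hh_Pm, hh_Pm, e2, e4, ← e3]; ring

def genF {R : Type*} [CommRing R] (m : ℕ) (S : Finset (Fin n → ℤ)) (q t : R) : R :=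
  ∑ γ ∈ S, q ^ (area γ).toNat * t ^ (dinv m γ).toNat

lemma map_genF {R R' : Type*} [CommRing R] [CommRing R'] (φ : R →+* R') (m : ℕ)
    (S : Finset (Fin n → ℤ)) (q t : R) : φ (genF m S q t) = genF m S (φ q) (φ t) := by
  simp [genF]

lemma cons0_inj : Function.Injective (cons0 : V n → V (n + 1)) :=
  fun μ ν h => funext fun i => by simpa using congrFun h i.succ

lemma identity_nil {R : Type*} [CommRing R] {u v w : R} (hu : IsNilpotent u) (hv : IsNilpotent v)
    (hw : IsNilpotent w) (m : ℕ) (W : Finset (Fin (n + 1 + 1) → ℤ))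
    (hW : ∀ γ, γ ∈ W ↔ γ ∈ dyckWords m (n + 1 + 1)) :
    w ^ ((n + 1 + 1) * m) * ((u - v) * genF m W u v - (u * genF m (W.filter (· 1 = 0)) v u -
      v * genF m (W.filter (· 1 = 0)) u v)) = 0 := by
  have key := key_identity hu hv hw m (W.preimage cons0 cons0_inj.injOn)
    (fun a ha => (mem_dyck_cons0.1 ((hW _).1 (mem_preimage.1 ha))).1)
    (fun a h1 h2 => mem_preimage.2 ((hW _).2 (mem_dyck_cons0.2 ⟨h1, h2⟩)))
  have h1 : ∀ (u v : R) (P : V (n + 1 + 1) → Prop) [DecidablePred P]
      [DecidablePred fun a => P (cons0 a)],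
      ∑ a ∈ W.preimage cons0 cons0_inj.injOn with P (cons0 a), term u v w m a =
        w ^ ((n + 1 + 1) * m) * genF m (W.filter P) u v := by
    intro u v P _ _
    rw [genF, mul_sum]
    refine sum_nbij cons0 (fun a ha => ?_) cons0_inj.injOn (fun γ hγ => ?_) (fun a ha => ?_)
    · simpa using ha
    · have hγ' : γ ∈ W ∧ P γ := by simpa using hγ
      have : cons0 (fun i => γ i.succ) = γ := by
        funext k; refine Fin.cases ?_ (fun i => rfl) k
        exact (((hW _).1 hγ'.1).1 0 rfl).symm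
      exact ⟨fun i => γ i.succ, by simpa [this] using hγ', this⟩
    · obtain ⟨b1, b2⟩ := mem_dyck_cons0.1 ((hW _).1 (mem_preimage.1 (mem_filter.1 ha).1))
      have b3 : ∀ l, snoc0 a l ≤ (cons0 a + cst m : V (n + 1 + 1)) l := b2
      have b4 : area (cons0 a) = ∑ l, a l := by simp [area, Fin.sum_univ_succ]
      have b5 : (∑ l, (cons0 a + cst m : V (n + 1 + 1)) l - ∑ l, snoc0 a l).toNat =
          (n + 1 + 1) * m := by
        have c1 : ∑ l, snoc0 a l = ∑ l, a l := by
          rw [Fin.sum_univ_castSucc]; simp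
        have c2 : ∑ l, (cons0 a + cst m : V (n + 1 + 1)) l =
            ∑ l, a l + (((n + 1 + 1) * m : ℕ) : ℤ) := by
          simp only [Pi.add_apply, sum_add_distrib]
          rw [Fin.sum_univ_succ]; simp [cst]
        rw [c1, c2]; omega
      rw [term, F, if_pos b3, hh_dinv b1 b2, b4, b5]; ring
  have h2 := h1 u v (fun _ => True)
  have h3 := h1 u v (· 1 = 0)
  have h4 := h1 v u (· 1 = 0)
  simp only [filter_true] at h2
  rw [h2] at key
  change _ = u * ∑ a ∈ _ with cons0 a 1 = 0, _ - v * ∑ a ∈ _ with cons0 a 1 = 0, _ at key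
  rw [h3, h4] at key
  linear_combination key

open Polynomial in
lemma identity {Q : Type*} [CommRing Q] (q t : Q) (m : ℕ) (W : Finset (Fin (n + 1 + 1) → ℤ))
    (hW : ∀ γ, γ ∈ W ↔ γ ∈ dyckWords m (n + 1 + 1)) :
    (q - t) * genF m W q t = q * genF m (W.filter (· 1 = 0)) t q -
      t * genF m (W.filter (· 1 = 0)) q t := by
  set u : Q[X] := Polynomial.X * Polynomial.C q
  set v : Q[X] := Polynomial.X * Polynomial.C t
  set P : Q[X] := Polynomial.X ^ ((n + 1 + 1) * m) * ((u - v) * genF m W u v -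
    (u * genF m (W.filter (· 1 = 0)) v u - v * genF m (W.filter (· 1 = 0)) u v)) with hP
  have h1 : ∀ N : ℕ, (Polynomial.X : Q[X]) ^ N ∣ P := by
    intro N
    have hX : IsNilpotent (AdjoinRoot.mk ((Polynomial.X : Q[X]) ^ N) Polynomial.X) :=
      ⟨N, by rw [← map_pow, AdjoinRoot.mk_self]⟩
    rw [← AdjoinRoot.mk_eq_zero, hP]
    simp only [map_mul, map_sub, map_pow, map_genF]
    exact identity_nil (by rw [map_mul]; exact nil_mul hX _) (by rw [map_mul]; exact nil_mul hX _)
      hX m W hW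
  have h2 : P = 0 := by
    ext k
    exact Polynomial.X_pow_dvd_iff.1 (h1 (k + 1)) k (Nat.lt_succ_self k)
  have h3 := congrArg (Polynomial.evalRingHom (1 : Q)) h2
  rw [hP] at h3
  simp only [map_mul, map_sub, map_pow, map_genF, u, v, coe_evalRingHom, eval_X, eval_C, one_mul,
    one_pow, eval_zero] at h3
  linear_combination h3

lemma exists_inj {α κ : Type*} [Nonempty α] [DecidableEq κ] (A B : Finset α) (p q : α → κ)
    (h : ∀ k, (A.filter (p · = k)).card ≤ (B.filter (q · = k)).card) :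
    ∃ f : α → α, Set.InjOn f A ∧ ∀ a ∈ A, f a ∈ B ∧ q (f a) = p a := by
  have : ∀ k, ∃ g : α → α, (A.filter (p · = k) : Set α) ⊆ g ⁻¹' (B.filter (q · = k) : Set α) ∧
      Set.InjOn g (A.filter (p · = k) : Set α) := fun k =>
    (Finset.finite_toSet _).exists_injOn_of_encard_le (by
      rw [Set.encard_coe_eq_coe_finsetCard, Set.encard_coe_eq_coe_finsetCard]
      exact_mod_cast h k)
  choose g h1 h2 using this
  have h3 : ∀ a ∈ A, g (p a) a ∈ B ∧ q (g (p a) a) = p a := fun a ha => by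
    simpa using h1 (p a) (show a ∈ _ by simpa using ha)
  refine ⟨fun a => g (p a) a, fun a ha b hb hab => ?_, h3⟩
  have e : p a = p b := by rw [← (h3 a ha).2, ← (h3 b hb).2]; exact congrArg q hab
  simp only [← e] at hab
  exact h2 (p a) (by simpa using ha) (by simpa [e] using hb) hab

open MvPolynomial in
lemma coeff_sum_mon {α : Type*} (S : Finset α) (p : α → ℕ × ℕ) (k : ℕ × ℕ) :
    coeff (Finsupp.single 0 k.1 + Finsupp.single 1 k.2)
      (∑ a ∈ S, MvPolynomial.X 0 ^ (p a).1 * MvPolynomial.X 1 ^ (p a).2 :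
        MvPolynomial (Fin 2) ℤ) = (S.filter (p · = k)).card := by
  simp only [coeff_sum, X_pow_eq_monomial, monomial_mul, coeff_monomial, one_mul, card_filter]
  push_cast
  refine sum_congr rfl fun a _ => ?_
  congr 1
  apply propext
  constructor
  · intro h
    have h0 := DFunLike.congr_fun h 0
    have h1 := DFunLike.congr_fun h 1
    simp at h0 h1
    exact Prod.ext h0 h1
  · rintro rfl; rfl

theorem main (m n : ℕ) (hn : 2 ≤ n) :
    ∃ I ⊆ dyckWords m n, ∃ f : (Fin n → ℤ) → (Fin n → ℤ),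
      Set.BijOn f (dyckWords m n \ dyckT m n) (dyckWords m n \ I) ∧
      (∀ w ∈ dyckWords m n \ dyckT m n,
        area (f w) = area w - 1 ∧ dinv m (f w) = dinv m w + 1) ∧
      gen m (dyckT m n) (MvPolynomial.X 0) (MvPolynomial.X 1) =
        gen m I (MvPolynomial.X 1) (MvPolynomial.X 0) := by
  classical
  obtain ⟨n, rfl⟩ : ∃ k, n = k + 1 + 1 := ⟨n - 2, by omega⟩
  set W := (dyck_finite m (n + 1 + 1)).toFinset
  have hW : ∀ γ, γ ∈ W ↔ γ ∈ dyckWords m (n + 1 + 1) := fun γ => Set.Finite.mem_toFinset _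
  have hWc : dyckWords m (n + 1 + 1) = W := Set.ext fun γ => (hW γ).symm
  have hT : dyckT m (n + 1 + 1) = W.filter (· 1 = 0) := by
    ext γ
    simp only [dyckT, Set.mem_ofPred_eq, coe_filter, hW]
    exact and_congr_right fun _ =>
      ⟨fun h => h 1 rfl, fun h i hi => by rwa [show i = 1 from Fin.ext hi]⟩
  have hD : dyckWords m (n + 1 + 1) \ dyckT m (n + 1 + 1) = W.filter (¬ · 1 = 0) := by
    rw [hT, hWc]; ext γ; simp only [Set.mem_sdiff, mem_coe, mem_filter]; tauto
  have hsplit : ∀ q t : MvPolynomial (Fin 2) ℤ, genF m W q t =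
      genF m (W.filter (· 1 = 0)) q t + genF m (W.filter (¬ · 1 = 0)) q t :=
    fun q t => (sum_filter_add_sum_filter_not _ _ _).symm
  have hid := identity (MvPolynomial.X 0 : MvPolynomial (Fin 2) ℤ) (MvPolynomial.X 1) m W hW
  have ha : ∀ γ ∈ W, 0 ≤ area γ := fun γ hγ => sum_nonneg fun i _ => ((hW γ).1 hγ).2.1 i
  obtain ⟨f, hf1, hf2⟩ := exists_inj (W.filter (¬ · 1 = 0)) W
    (fun γ => ((area γ).toNat, (dinv m γ).toNat + 1))
    (fun γ => ((area γ).toNat + 1, (dinv m γ).toNat)) (by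
      intro k
      have e1 := coeff_sum_mon W (fun γ => ((area γ).toNat + 1, (dinv m γ).toNat)) k
      have e2 := coeff_sum_mon (W.filter (¬ · 1 = 0))
        (fun γ => ((area γ).toNat, (dinv m γ).toNat + 1)) k
      have e3 := coeff_sum_mon (W.filter (· 1 = 0))
        (fun γ => ((dinv m γ).toNat + 1, (area γ).toNat)) k
      have e4 : (∑ γ ∈ W, MvPolynomial.X 0 ^ ((area γ).toNat + 1) *
          MvPolynomial.X 1 ^ (dinv m γ).toNat : MvPolynomial (Fin 2) ℤ) =
          ∑ γ ∈ W.filter (¬ · 1 = 0), MvPolynomial.X 0 ^ (area γ).toNat *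
            MvPolynomial.X 1 ^ ((dinv m γ).toNat + 1) +
          ∑ γ ∈ W.filter (· 1 = 0), MvPolynomial.X 0 ^ ((dinv m γ).toNat + 1) *
            MvPolynomial.X 1 ^ (area γ).toNat := by
        have f1 : (∑ γ ∈ W, MvPolynomial.X 0 ^ ((area γ).toNat + 1) *
          MvPolynomial.X 1 ^ (dinv m γ).toNat : MvPolynomial (Fin 2) ℤ) =
            MvPolynomial.X 0 * genF m W (MvPolynomial.X 0) (MvPolynomial.X 1) := by
          rw [genF, mul_sum]; exact sum_congr rfl fun γ _ => by ring
        have f2 : (∑ γ ∈ W.filter (¬ · 1 = 0), MvPolynomial.X 0 ^ (area γ).toNat *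
            MvPolynomial.X 1 ^ ((dinv m γ).toNat + 1) : MvPolynomial (Fin 2) ℤ) =
            MvPolynomial.X 1 * genF m (W.filter (¬ · 1 = 0)) (MvPolynomial.X 0)
              (MvPolynomial.X 1) := by
          rw [genF, mul_sum]; exact sum_congr rfl fun γ _ => by ring
        have f3 : (∑ γ ∈ W.filter (· 1 = 0), MvPolynomial.X 0 ^ ((dinv m γ).toNat + 1) *
            MvPolynomial.X 1 ^ (area γ).toNat : MvPolynomial (Fin 2) ℤ) =
            MvPolynomial.X 0 * genF m (W.filter (· 1 = 0)) (MvPolynomial.X 1)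
              (MvPolynomial.X 0) := by
          rw [genF, mul_sum]; exact sum_congr rfl fun γ _ => by ring
        rw [f1, f2, f3]
        linear_combination hid + MvPolynomial.X 1 * hsplit (MvPolynomial.X 0) (MvPolynomial.X 1)
      simp only at e1 e2 e3
      rw [e4, MvPolynomial.coeff_add, e2, e3] at e1
      omega)
  have hf3 : ∀ γ ∈ W.filter (¬ · 1 = 0), (area (f γ)).toNat + 1 = (area γ).toNat ∧
      (dinv m (f γ)).toNat = (dinv m γ).toNat + 1 := fun γ hγ => Prod.ext_iff.1 (hf2 γ hγ).2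
  set J := (W.filter (¬ · 1 = 0)).image f with hJ
  have hJW : J ⊆ W := fun x hx => by
    obtain ⟨γ, hγ, rfl⟩ := mem_image.1 hx
    exact (hf2 γ hγ).1
  refine ⟨(W \ J : Finset _), by rw [hWc]; exact coe_subset.2 sdiff_subset, f, ?_, ?_, ?_⟩
  · rw [hD, hWc, ← coe_sdiff, Finset.sdiff_sdiff_eq_self hJW, hJ, coe_image]
    exact hf1.bijOn_image
  · rw [hD]
    intro γ hγ
    have b1 := hf3 γ hγ
    have b2 := ha γ (mem_filter.1 hγ).1
    have b3 := ha _ (hf2 γ hγ).1
    have b4 := dinv_nonneg m γ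
    have b5 := dinv_nonneg m (f γ)
    omega
  · rw [hT, gen, gen, finsum_mem_coe_finset, finsum_mem_coe_finset]
    change genF m _ _ _ = genF m _ _ _
    have hid' := identity (MvPolynomial.X 1 : MvPolynomial (Fin 2) ℤ) (MvPolynomial.X 0) m W hW
    have b1 : genF m (W \ J) (MvPolynomial.X 1 : MvPolynomial (Fin 2) ℤ) (MvPolynomial.X 0) +
        genF m J (MvPolynomial.X 1) (MvPolynomial.X 0) =
        genF m W (MvPolynomial.X 1) (MvPolynomial.X 0) := sum_sdiff hJW
    have b2 : MvPolynomial.X 1 * genF m J (MvPolynomial.X 1 : MvPolynomial (Fin 2) ℤ)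
        (MvPolynomial.X 0) = MvPolynomial.X 0 *
        genF m (W.filter (¬ · 1 = 0)) (MvPolynomial.X 1) (MvPolynomial.X 0) := by
      rw [genF, genF, hJ, sum_image hf1, mul_sum, mul_sum]
      refine sum_congr rfl fun γ hγ => ?_
      rw [← (hf3 γ hγ).1, (hf3 γ hγ).2]; ring
    refine mul_left_cancel₀ (MvPolynomial.X_ne_zero (R := ℤ) (1 : Fin 2)) ?_
    linear_combination -hid' - MvPolynomial.X 1 * b1 + b2 -
      MvPolynomial.X 0 * hsplit (MvPolynomial.X 1) (MvPolynomial.X 0)

end Pool.Agent.Lib.MP_a77f20_co
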