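import Pool.Agent.Lib.MP_a77f20_co.Fam

namespace Pool.Agent.Lib.MP_a77f20_co

open AddMonoidAlgebra Finset

variable {R : Type*} [CommRing R] {n : ℕ}

def cons0 (μ : V n) : V (n + 1) := Fin.cons 0 μ
def snoc0 (μ : V n) : V (n + 1) := Fin.snoc (α := fun _ => ℤ) μ 0

@[simp] lemma cons0_zero (μ : V n) : cons0 μ 0 = 0 := rfl
@[simp] lemma cons0_succ (μ : V n) (i : Fin n) : cons0 μ i.succ = μ i := rfl
@[simp] lemma snoc0_last (μ : V n) : snoc0 μ (Fin.last n) = 0 := by simp [snoc0]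
@[simp] lemma snoc0_castSucc (μ : V n) (i : Fin n) : snoc0 μ i.castSucc = μ i := by simp [snoc0]

def consH : V n →+ V (n + 1) where
  toFun := cons0
  map_zero' := by funext k; refine Fin.cases ?_ (fun i => ?_) k <;> simp
  map_add' μ ν := by funext k; refine Fin.cases ?_ (fun i => ?_) k <;> simp

def snocH : V n →+ V (n + 1) where
  toFun := snoc0
  map_zero' := by funext k; refine Fin.lastCases ?_ (fun i => ?_) k <;> simp
  map_add' μ ν := by funext k; refine Fin.lastCases ?_ (fun i => ?_) k <;> simp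

noncomputable def rs : L R n →ₐ[R] L R (n + 1) := mapDomainAlgHom R R consH
noncomputable def rc : L R n →ₐ[R] L R (n + 1) := mapDomainAlgHom R R snocH

@[simp] lemma rs_mon (μ : V n) : rs (mon μ : L R n) = mon (cons0 μ) := by simp [rs, mon, consH]
@[simp] lemma rc_mon (μ : V n) : rc (mon μ : L R n) = mon (snoc0 μ) := by simp [rc, mon, snocH]
@[simp] lemma rs_C (r : R) : rs (C r : L R n) = C r := rs.commutes r
@[simp] lemma rc_C (r : R) : rc (C r : L R n) = C r := rc.commutes r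

lemma cons0_neg (μ : V n) : cons0 (-μ) = -cons0 μ := consH.map_neg μ
lemma snoc0_neg (μ : V n) : snoc0 (-μ) = -snoc0 μ := snocH.map_neg μ
lemma cons0_add (μ ν : V n) : cons0 (μ + ν) = cons0 μ + cons0 ν := consH.map_add μ ν
lemma snoc0_add (μ ν : V n) : snoc0 (μ + ν) = snoc0 μ + snoc0 ν := snocH.map_add μ ν

lemma cons0_e (i : Fin n) : cons0 (e i) = e i.succ := by
  funext k; refine Fin.cases ?_ (fun l => ?_) k
  · simp [e_apply, (Fin.succ_ne_zero i).symm]
  · simp [e_apply]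
lemma snoc0_e (i : Fin n) : snoc0 (e i) = e i.castSucc := by
  funext k; refine Fin.lastCases ?_ (fun l => ?_) k
  · simp [e_apply, (Fin.castSucc_ne_last i).symm]
  · simp [e_apply]

@[simp] lemma rs_X (i : Fin n) : rs (X i : L R n) = X i.succ := by rw [X, rs_mon, cons0_e, X]
@[simp] lemma rs_Y (i : Fin n) : rs (Y i : L R n) = Y i.succ := by
  rw [Y, rs_mon, cons0_neg, cons0_e, Y]
@[simp] lemma rc_X (i : Fin n) : rc (X i : L R n) = X i.castSucc := by rw [X, rc_mon, snoc0_e, X]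
@[simp] lemma rc_Y (i : Fin n) : rc (Y i : L R n) = Y i.castSucc := by
  rw [Y, rc_mon, snoc0_neg, snoc0_e, Y]

lemma cons0_sw (i j : Fin n) (μ : V n) : cons0 (sw i j μ) = sw i.succ j.succ (cons0 μ) := by
  funext k; refine Fin.cases ?_ (fun l => ?_) k
  · rw [sw_other (Fin.succ_ne_zero i).symm (Fin.succ_ne_zero j).symm]; rfl
  · simp [sw_apply]
lemma snoc0_sw (i j : Fin n) (μ : V n) :
    snoc0 (sw i j μ) = sw i.castSucc j.castSucc (snoc0 μ) := by
  funext k; refine Fin.lastCases ?_ (fun l => ?_) k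
  · rw [sw_other (Fin.castSucc_ne_last i).symm (Fin.castSucc_ne_last j).symm]; simp
  · simp [sw_apply]

lemma rs_S (i j : Fin n) (f : L R n) : rs (S i j f) = S i.succ j.succ (rs f) :=
  LinearMap.congr_fun (lin_ext (T := (rs.comp (S i j)).toLinearMap)
    (U := ((S i.succ j.succ).comp rs).toLinearMap) (fun μ => by simp [cons0_sw])) f
lemma rc_S (i j : Fin n) (f : L R n) : rc (S i j f) = S i.castSucc j.castSucc (rc f) :=
  LinearMap.congr_fun (lin_ext (T := (rc.comp (S i j)).toLinearMap)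
    (U := ((S i.castSucc j.castSucc).comp rc).toLinearMap) (fun μ => by simp [snoc0_sw])) f

lemma Adj.succ {i j : Fin n} (h : Adj i j) : Adj i.succ j.succ := by
  unfold Adj at *; simp only [Fin.val_succ]; omega
lemma Adj.castSucc {i j : Fin n} (h : Adj i j) : Adj i.castSucc j.castSucc := h

lemma rs_A (v : R) {i j : Fin n} (hij : Adj i j) (f : L R n) :
    rs (A v i j f) = A v i.succ j.succ (rs f) :=
  A_nat (rs : L R n →ₐ[R] _).toRingHom hij.ne hij.succ.ne (rs_X i) (rs_X j) (rs_C v) (rs_S i j) f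
lemma rs_B (v : R) {i j : Fin n} (hij : Adj i j) (f : L R n) :
    rs (B v i j f) = B v i.succ j.succ (rs f) :=
  B_nat (rs : L R n →ₐ[R] _).toRingHom hij.ne hij.succ.ne (rs_X i) (rs_X j) (rs_C v) (rs_S i j) f
lemma rc_A (v : R) {i j : Fin n} (hij : Adj i j) (f : L R n) :
    rc (A v i j f) = A v i.castSucc j.castSucc (rc f) :=
  A_nat (rc : L R n →ₐ[R] _).toRingHom hij.ne hij.castSucc.ne (rc_X i) (rc_X j) (rc_C v)
    (rc_S i j) f

noncomputable def CT : L R n →ₗ[R] R := Finsupp.lapply 0 ∘ₗ (coeffLinearEquiv R).toLinearMap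

lemma CT_apply (f : L R n) : CT f = f.coeff 0 := rfl

open Classical in
lemma CT_mon (μ : V n) : CT (mon μ : L R n) = if μ = 0 then 1 else 0 := by
  simp [CT_apply, mon, Finsupp.single_apply]

@[simp] lemma CT_one : CT (1 : L R n) = 1 := by rw [← mon_zero, CT_mon, if_pos rfl]

lemma CT_C_mul (r : R) (f : L R n) : CT (C r * f) = r * CT f := by
  rw [← smul_eq, map_smul, smul_eq_mul]

lemma CT_eq_zero {s : Set (V n)} (h : (0 : V n) ∉ s) {f : L R n} (hf : f ∈ supp R s) :
    CT f = 0 := mem_supported'.1 hf 0 h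

lemma CT_map {n' : ℕ} (φ : V n →+ V n') (hφ : Function.Injective φ) (f : L R n) :
    CT (mapDomainAlgHom R R φ f) = CT f := by
  refine LinearMap.congr_fun (lin_ext (T := CT ∘ₗ (mapDomainAlgHom R R φ).toLinearMap)
    (U := CT) (fun μ => ?_)) f
  have : mapDomainAlgHom R R φ (mon μ) = mon (φ μ) := by simp [mon]
  simp only [LinearMap.comp_apply, AlgHom.toLinearMap_apply, this, CT_mon,
    map_eq_zero_iff φ hφ]

lemma CT_S (i j : Fin n) (f : L R n) : CT (S i j f) = CT f :=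
  CT_map _ (fun μ ν h => by simpa [swH] using congrArg (sw i j) h) f
lemma CT_rs (f : L R n) : CT (rs f) = CT f :=
  CT_map _ (fun μ ν h => funext fun i => by simpa [consH] using congrFun h i.succ) f
lemma CT_rc (f : L R n) : CT (rc f) = CT f :=
  CT_map _ (fun μ ν h => funext fun i => by simpa [snocH] using congrFun h i.castSucc) f

section inv
variable {T : Type*} [CommRing T]

noncomputable def iv (p : T) : T := Ring.inverse (1 - p)

lemma iv_mul {p : T} (hp : IsNilpotent p) : (1 - p) * iv p = 1 :=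
  Ring.mul_inverse_cancel _ hp.isUnit_one_sub

lemma iv_unique {p q : T} (hp : IsNilpotent p) (h : (1 - p) * q = 1) : iv p = q := by
  linear_combination q * iv_mul hp - iv p * h

@[simp] lemma iv_zero : iv (0 : T) = 1 := by simp [iv]

lemma map_iv {T' F : Type*} [CommRing T'] [FunLike F T T'] [RingHomClass F T T'] (Φ : F) {p : T}
    (hp : IsNilpotent p) : Φ (iv p) = iv (Φ p) := by
  symm
  apply iv_unique (hp.map Φ)
  simpa using congrArg Φ (iv_mul hp)

lemma nil_mul {p : T} (hp : IsNilpotent p) (q : T) : IsNilpotent (p * q) :=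
  (Commute.all p q).isNilpotent_mul_right hp

end inv

lemma nil_C {r : R} (hr : IsNilpotent r) (p : L R n) : IsNilpotent (C r * p) :=
  nil_mul (hr.map C) p

def Cl (s : Set (V n)) : Prop := (0 : V n) ∈ s ∧ ∀ μ ∈ s, ∀ ν ∈ s, μ + ν ∈ s

lemma Cl.one {s : Set (V n)} (hs : Cl s) : (1 : L R n) ∈ supp R s := mon_mem hs.1
lemma Cl.C {s : Set (V n)} (hs : Cl s) (r : R) : (C r : L R n) ∈ supp R s := by
  simpa using C_mul_mem r (hs.one (R := R))
lemma Cl.mul {s : Set (V n)} (hs : Cl s) {f g : L R n} (hf : f ∈ supp R s) (hg : g ∈ supp R s) :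
    f * g ∈ supp R s := mul_mem_supp hs.2 hf hg
lemma Cl.pow {s : Set (V n)} (hs : Cl s) {f : L R n} (hf : f ∈ supp R s) (k : ℕ) :
    f ^ k ∈ supp R s := by
  induction k with
  | zero => simpa using hs.one
  | succ k ih => rw [pow_succ]; exact hs.mul ih hf
lemma Cl.prod {s : Set (V n)} (hs : Cl s) {ι : Type*} {t : Finset ι} {f : ι → L R n}
    (hf : ∀ i ∈ t, f i ∈ supp R s) : ∏ i ∈ t, f i ∈ supp R s :=
  prod_induction f (· ∈ supp R s) (fun _ _ => hs.mul) hs.one hf
lemma Cl.iv {s : Set (V n)} (hs : Cl s) {p : L R n} (hp : IsNilpotent p) (hf : p ∈ supp R s) :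
    iv p ∈ supp R s := by
  obtain ⟨N, hN⟩ := hp
  rw [iv_unique ⟨N, hN⟩ (q := ∑ k ∈ range N, p ^ k) (by rw [mul_neg_geom_sum, hN, sub_zero])]
  exact Submodule.sum_mem _ fun k _ => hs.pow hf k

noncomputable def psi (v : R) (p : L R n) : L R n := (1 - p) * iv (C v * p)

lemma Cl.psi {s : Set (V n)} (hs : Cl s) {v : R} (hv : IsNilpotent v) {p : L R n}
    (hf : p ∈ supp R s) : psi v p ∈ supp R s :=
  hs.mul (sub_mem hs.one hf) (hs.iv (nil_C hv p) (C_mul_mem v hf))

lemma map_psi {n' : ℕ} (Φ : L R n →ₐ[R] L R n') {v : R} (hv : IsNilpotent v) (p : L R n) :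
    Φ (psi v p) = psi v (Φ p) := by
  have : Φ (C v) = C v := Φ.commutes v
  rw [psi, map_mul, map_iv Φ (nil_C hv p), map_sub, map_one, map_mul, this, psi]

noncomputable def Del (v : R) (n : ℕ) : L R n :=
  ∏ a : Fin n, ∏ b : Fin n, if a < b then psi v (X a * Y b) else 1

noncomputable def Om (w : R) (n : ℕ) : L R n := ∏ a : Fin n, iv (C w * X a)

lemma Del_succ {v : R} (hv : IsNilpotent v) :
    Del v (n + 1) = (∏ b : Fin n, psi v (X 0 * Y b.succ)) * rs (Del v n) := by
  simp [Del, Fin.prod_univ_succ, map_prod, apply_ite rs, map_psi rs hv]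

lemma Del_castSucc {v : R} (hv : IsNilpotent v) :
    Del v (n + 1) = (∏ a : Fin n, psi v (X a.castSucc * Y (Fin.last n))) * rc (Del v n) := by
  have h : ∀ i : Fin n, ¬ Fin.last n < i.castSucc := fun i => not_lt.2 (Fin.le_last _)
  simp [Del, Fin.prod_univ_castSucc, map_prod, apply_ite rc, map_psi rc hv, prod_mul_distrib,
    h]
  ring

lemma Om_succ {w : R} (hw : IsNilpotent w) : Om w (n + 1) = iv (C w * X 0) * rs (Om w n) := by
  simp [Om, Fin.prod_univ_succ, map_prod, map_iv rs (nil_C hw _)]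

lemma Om_castSucc {w : R} (hw : IsNilpotent w) :
    Om w (n + 1) = iv (C w * X (Fin.last n)) * rc (Om w n) := by
  simp only [Om, Fin.prod_univ_castSucc, map_prod, map_iv rc (nil_C hw _), map_mul, rc_C, rc_X]
  ring

lemma S_Om {w : R} (hw : IsNilpotent w) (i j : Fin n) : S i j (Om w n) = Om w n := by
  simp only [Om, map_prod, map_iv (S i j) (nil_C hw _), map_mul, S_C, S_X]
  exact Equiv.prod_comp (Equiv.swap i j) (fun a => iv (C w * X a))

lemma swap_lt {i j a b : Fin n} (hij : Adj i j) :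
    (Equiv.swap i j a < Equiv.swap i j b ∧ ¬(Equiv.swap i j a = i ∧ Equiv.swap i j b = j)) ↔
      (a < b ∧ ¬(a = i ∧ b = j)) := by
  unfold Adj at hij
  simp only [Equiv.swap_apply_def, Fin.lt_def, Fin.ext_iff]
  split_ifs <;> omega

lemma Del_split {v : R} (hv : IsNilpotent v) {i j : Fin n} (hij : Adj i j) :
    ∃ D' : L R n, S i j D' = D' ∧ Del v n = psi v (X i * Y j) * D' := by
  refine ⟨∏ a : Fin n, ∏ b : Fin n,
    if a < b ∧ ¬(a = i ∧ b = j) then psi v (X a * Y b) else 1, ?_, ?_⟩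
  · simp only [map_prod, apply_ite (S i j), map_psi (S i j) hv, map_mul, S_X, S_Y, map_one]
    rw [← Equiv.prod_comp (Equiv.swap i j)]
    refine prod_congr rfl fun a _ => ?_
    rw [← Equiv.prod_comp (Equiv.swap i j)]
    refine prod_congr rfl fun b _ => ?_
    simp only [swap_lt hij, Equiv.swap_apply_self]
  · have : psi v (X i * Y j) = ∏ a : Fin n, ∏ b : Fin n,
        if a = i ∧ b = j then psi v (X a * Y b) else 1 := by
      simp [ite_and]
    rw [this, ← prod_mul_distrib, Del]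
    refine prod_congr rfl fun a _ => ?_
    rw [← prod_mul_distrib]
    refine prod_congr rfl fun b _ => ?_
    by_cases h : a = i ∧ b = j
    · obtain ⟨rfl, rfl⟩ := h
      have : a < b := by unfold Adj at hij; rw [Fin.lt_def]; omega
      simp [this]
    · simp [h]

noncomputable def ph (v w : R) : L R n →ₗ[R] R := CT ∘ₗ LinearMap.mulRight R (Om w n * Del v n)

lemma ph_apply (v w : R) (f : L R n) : ph v w f = CT (f * (Om w n * Del v n)) := rfl

lemma ph_C_mul (v w r : R) (f : L R n) : ph v w (C r * f) = r * ph v w f := by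
  rw [← smul_eq, map_smul, smul_eq_mul]

lemma ph_A {v w : R} (hv : IsNilpotent v) (hw : IsNilpotent w) {i j : Fin n} (hij : Adj i j)
    (f g : L R n) : ph v w (A v i j f * g) = ph v w (f * A v i j g) := by
  obtain ⟨D', hD, hD'⟩ := Del_split hv hij
  have h1 : (A v i j f * g - f * A v i j g) * psi v (X i * Y j) = S i j f * g - f * S i j g := by
    have e1 := chA v hij.ne f
    have e2 := chA v hij.ne g
    have e3 := iv_mul (nil_C hv (X i * Y j : L R n))
    have e4 := X_mul_Y (R := R) j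
    rw [psi]
    set q := iv (C v * (X i * Y j) : L R n)
    linear_combination (-q * Y j) * (g * e1 - f * e2) + (S i j f * g - f * S i j g) * e3
      - q * (A v i j f * g - f * A v i j g) * e4 + q * (S i j f * g - f * S i j g) * e4
  rw [← sub_eq_zero, ← map_sub, ph_apply, hD']
  have h2 : (A v i j f * g - f * A v i j g) * (Om w n * (psi v (X i * Y j) * D')) =
      S i j (f * S i j g * (Om w n * D')) - f * S i j g * (Om w n * D') := by
    simp only [map_mul, S_S, S_Om hw, hD]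
    linear_combination (Om w n * D') * h1
  rw [h2, map_sub, CT_S, sub_self]

lemma ph_B {v w : R} (hv : IsNilpotent v) (hw : IsNilpotent w) {i j : Fin n} (hij : Adj i j)
    (f g : L R n) : ph v w (B v i j f * g) = ph v w (f * B v i j g) := by
  rw [B_apply, B_apply, add_mul, mul_add, map_add, map_add, ph_A hv hw hij]
  congr 2; ring

def Ge (ω : V n →+ ℤ) (d : ℤ) : Set (V n) := {μ | d ≤ ω μ}

lemma cl_Ge (ω : V n →+ ℤ) : Cl (Ge ω 0) :=
  ⟨by simp [Ge], fun μ h1 ν h2 => by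
    simp only [Ge, Set.mem_ofPred_eq, map_add] at *; omega⟩

lemma mul_Ge {ω : V n →+ ℤ} {d d' d'' : ℤ} (h : d'' ≤ d + d') {f g : L R n}
    (hf : f ∈ supp R (Ge ω d)) (hg : g ∈ supp R (Ge ω d')) : f * g ∈ supp R (Ge ω d'') :=
  mul_mem_supp (fun μ h1 ν h2 => by
    simp only [Ge, Set.mem_ofPred_eq, map_add] at *; omega) hf hg

lemma CT_Ge {ω : V n →+ ℤ} {f : L R n} (hf : f ∈ supp R (Ge ω 1)) : CT f = 0 :=
  CT_eq_zero (by simp [Ge]) hf

def Cong (ω : V n →+ ℤ) (τ : V n) (c : R) (g g' : L R n) : Prop :=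
  g ∈ supp R (Ge ω 0) ∧ g' ∈ supp R (Ge ω 0) ∧
    ∃ h ∈ supp R (Ge ω 0), g - g' = (mon τ - C c) * h

section cong
variable {ω : V n →+ ℤ} {τ : V n} {c : R}

lemma Cong.refl {g : L R n} (hg : g ∈ supp R (Ge ω 0)) : Cong ω τ c g g :=
  ⟨hg, hg, 0, zero_mem _, by simp⟩

lemma Cong.base (h : ω τ = 1) : Cong ω τ c (mon τ) (C c) :=
  ⟨mon_mem (by simp [Ge, h]), (cl_Ge ω).C c, 1, (cl_Ge ω).one, by simp⟩

lemma Cong.mul {f f' g g' : L R n} (hf : Cong ω τ c f f') (hg : Cong ω τ c g g') :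
    Cong ω τ c (f * g) (f' * g') := by
  obtain ⟨a1, a2, h, a3, a4⟩ := hf
  obtain ⟨b1, b2, k, b3, b4⟩ := hg
  refine ⟨(cl_Ge ω).mul a1 b1, (cl_Ge ω).mul a2 b2, h * g + f' * k,
    add_mem ((cl_Ge ω).mul a3 b1) ((cl_Ge ω).mul a2 b3), ?_⟩
  linear_combination g * a4 + f' * b4

lemma Cong.sub {f f' g g' : L R n} (hf : Cong ω τ c f f') (hg : Cong ω τ c g g') :
    Cong ω τ c (f - g) (f' - g') := by
  obtain ⟨a1, a2, h, a3, a4⟩ := hf
  obtain ⟨b1, b2, k, b3, b4⟩ := hg
  refine ⟨sub_mem a1 b1, sub_mem a2 b2, h - k, sub_mem a3 b3, ?_⟩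
  linear_combination a4 - b4

lemma Cong.pow {f f' : L R n} (hf : Cong ω τ c f f') (k : ℕ) : Cong ω τ c (f ^ k) (f' ^ k) := by
  induction k with
  | zero => simpa using Cong.refl (cl_Ge ω).one
  | succ k ih => rw [pow_succ, pow_succ]; exact ih.mul hf

lemma Cong.prod {ι : Type*} {t : Finset ι} {f f' : ι → L R n}
    (h : ∀ i ∈ t, Cong ω τ c (f i) (f' i)) : Cong ω τ c (∏ i ∈ t, f i) (∏ i ∈ t, f' i) := by
  classical
  induction t using Finset.induction_on with
  | empty => simpa using Cong.refl (cl_Ge ω).one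
  | insert a t ha ih =>
    rw [prod_insert ha, prod_insert ha]
    exact (h a (mem_insert_self _ _)).mul (ih fun i hi => h i (mem_insert_of_mem hi))

lemma Cong.iv {p p' : L R n} (hp : IsNilpotent p) (hp' : IsNilpotent p') (h : Cong ω τ c p p') :
    Cong ω τ c (iv p) (iv p') := by
  obtain ⟨a1, a2, k, a3, a4⟩ := h
  have b1 := (cl_Ge ω).iv hp a1
  have b2 := (cl_Ge ω).iv hp' a2
  refine ⟨b1, b2, k * (MP_a77f20_co.iv p * MP_a77f20_co.iv p'),
    (cl_Ge ω).mul a3 ((cl_Ge ω).mul b1 b2), ?_⟩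
  linear_combination (MP_a77f20_co.iv p * MP_a77f20_co.iv p') * a4
    + MP_a77f20_co.iv p' * iv_mul hp - MP_a77f20_co.iv p * iv_mul hp'

lemma Cong.psi {v : R} (hv : IsNilpotent v) {p p' : L R n} (h : Cong ω τ c p p') :
    Cong ω τ c (psi v p) (psi v p') :=
  ((Cong.refl (cl_Ge ω).one).sub h).mul
    (((Cong.refl ((cl_Ge ω).C v)).mul h).iv (nil_C hv _) (nil_C hv _))

lemma Cong.CT (h1 : ω τ = 1) (hc : IsNilpotent c) {g g' : L R n} (h : Cong ω τ c g g')
    (hg' : g' ∈ supp R (Ge (-ω) 0)) :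
    CT (g * MP_a77f20_co.iv (C c * mon (-τ))) = CT g' := by
  obtain ⟨a1, a2, k, a3, a4⟩ := h
  have e1 := iv_mul (nil_C hc (mon (-τ) : L R n))
  have e2 : (mon τ : L R n) * mon (-τ) = 1 := by rw [← mon_add]; simp
  have m1 : (C c * mon (-τ) : L R n) ∈ supp R (Ge (-ω) 1) :=
    C_mul_mem c (mon_mem (by simp [Ge, h1]))
  have m2 : MP_a77f20_co.iv (C c * mon (-τ) : L R n) ∈ supp R (Ge (-ω) 0) :=
    (cl_Ge _).iv (nil_C hc _) (C_mul_mem c (mon_mem (by simp [Ge, h1])))
  set q := MP_a77f20_co.iv (C c * mon (-τ) : L R n)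
  have : g * q = g' + mon τ * k + g' * (C c * mon (-τ) * q) := by
    linear_combination q * a4 + (g' + mon τ * k) * e1 + C c * k * q * e2
  rw [this, map_add, map_add, CT_Ge (mul_Ge (by norm_num) (mon_mem (s := Ge ω 1) (by simp [Ge, h1])) a3),
    CT_Ge (mul_Ge (by norm_num) hg' (mul_Ge (d'' := 1) (by norm_num) m1 m2))]
  ring

end cong

end Pool.Agent.Lib.MP_a77f20_co
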