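import Pool.Agent.Lib.MP_a77f20_co.Eval

namespace Pool.Agent.Lib.MP_a77f20_co

open AddMonoidAlgebra Finset

variable {R : Type*} [CommRing R] {n : ℕ}

def hp (a1 b1 a2 b2 : ℤ) : ℤ := min b1 (b2 + 1) - min a1 (b2 + 1) - min b1 a2 + min a1 a2

def hh (α β : V n) : ℤ := ∑ a, ∑ b, if a < b then hp (α a) (β a) (α b) (β b) else 0

open Classical in
noncomputable def F (v w : R) (α β : V n) : R :=
  if ∀ l, α l ≤ β l then w ^ (∑ l, β l - ∑ l, α l).toNat * v ^ (hh α β).toNat else 0

lemma hp_nonneg {a1 b1 a2 b2 : ℤ} (h1 : a1 ≤ b1) (h2 : a2 ≤ b2) : 0 ≤ hp a1 b1 a2 b2 := by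
  unfold hp; omega

lemma hh_nonneg {α β : V n} (h : ∀ l, α l ≤ β l) : 0 ≤ hh α β :=
  sum_nonneg fun a _ => sum_nonneg fun b _ => by
    split_ifs
    · exact hp_nonneg (h a) (h b)
    · rfl

def Gs (i j : Fin n) (g : ℤ → ℤ → ℤ) (x y : V n) : ℤ :=
  ∑ a, ∑ b, if a < b ∧ ¬(a = i ∧ b = j) then g (x a) (y b) else 0

lemma Gs_left {i j : Fin n} (hij : Adj i j) (g : ℤ → ℤ → ℤ) (x y : V n) :
    Gs i j g (sw i j x) y = Gs i j g x y := by
  unfold Gs
  rw [← Equiv.sum_comp (Equiv.swap i j)]
  refine sum_congr rfl fun a _ => sum_congr rfl fun b _ => ?_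
  have : (Equiv.swap i j a < b ∧ ¬(Equiv.swap i j a = i ∧ b = j)) ↔ (a < b ∧ ¬(a = i ∧ b = j)) := by
    unfold Adj at hij
    simp only [Equiv.swap_apply_def, Fin.lt_def, Fin.ext_iff]
    split_ifs <;> omega
  simp only [this, sw, Equiv.swap_apply_self]

lemma Gs_right {i j : Fin n} (hij : Adj i j) (g : ℤ → ℤ → ℤ) (x y : V n) :
    Gs i j g x (sw i j y) = Gs i j g x y := by
  unfold Gs
  refine sum_congr rfl fun a _ => ?_
  rw [← Equiv.sum_comp (Equiv.swap i j)]
  refine sum_congr rfl fun b _ => ?_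
  have : (a < Equiv.swap i j b ∧ ¬(a = i ∧ Equiv.swap i j b = j)) ↔ (a < b ∧ ¬(a = i ∧ b = j)) := by
    unfold Adj at hij
    simp only [Equiv.swap_apply_def, Fin.lt_def, Fin.ext_iff]
    split_ifs <;> omega
  simp only [this, sw, Equiv.swap_apply_self]

def rest (i j : Fin n) (α β : V n) : ℤ :=
  ∑ a, ∑ b, if a < b ∧ ¬(a = i ∧ b = j) then hp (α a) (β a) (α b) (β b) else 0

lemma rest_eq (i j : Fin n) (α β : V n) :
    rest i j α β = Gs i j (fun x y => min x (y + 1)) β β - Gs i j (fun x y => min x (y + 1)) α β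
      - Gs i j min β α + Gs i j min α α := by
  simp only [rest, Gs, ← sum_sub_distrib, ← sum_add_distrib]
  refine sum_congr rfl fun a _ => sum_congr rfl fun b _ => ?_
  split_ifs <;> simp [hp]

lemma rest_left {i j : Fin n} (hij : Adj i j) (α β : V n) :
    rest i j (sw i j α) β = rest i j α β := by
  simp only [rest_eq, Gs_left hij, Gs_right hij]

lemma rest_right {i j : Fin n} (hij : Adj i j) (α β : V n) :
    rest i j α (sw i j β) = rest i j α β := by
  simp only [rest_eq, Gs_left hij, Gs_right hij]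

lemma rest_nonneg (i j : Fin n) {α β : V n} (h : ∀ l, α l ≤ β l) : 0 ≤ rest i j α β :=
  sum_nonneg fun a _ => sum_nonneg fun b _ => by
    split_ifs
    · exact hp_nonneg (h a) (h b)
    · rfl

lemma hh_eq {i j : Fin n} (hij : Adj i j) (α β : V n) :
    hh α β = rest i j α β + hp (α i) (β i) (α j) (β j) := by
  have : hp (α i) (β i) (α j) (β j) =
      ∑ a, ∑ b, if a = i ∧ b = j then hp (α a) (β a) (α b) (β b) else 0 := by
    simp [ite_and]
  rw [this, rest, ← sum_add_distrib, hh]
  refine sum_congr rfl fun a _ => ?_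
  rw [← sum_add_distrib]
  refine sum_congr rfl fun b _ => ?_
  by_cases h : a = i ∧ b = j
  · obtain ⟨rfl, rfl⟩ := h
    have : a < b := by unfold Adj at hij; rw [Fin.lt_def]; omega
    simp [this]
  · simp [h]

lemma sum_sw (i j : Fin n) (α : V n) : ∑ l, sw i j α l = ∑ l, α l :=
  Equiv.sum_comp (Equiv.swap i j) α

open Classical in
noncomputable def Fl (v W : R) (P : Prop) (r a1 b1 a2 b2 : ℤ) : R :=
  if P ∧ a1 ≤ b1 ∧ a2 ≤ b2 then W * v ^ (r + hp a1 b1 a2 b2).toNat else 0

lemma le_split (i j : Fin n) (α β : V n) :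
    (∀ l, α l ≤ β l) ↔ (∀ l, l ≠ i → l ≠ j → α l ≤ β l) ∧ α i ≤ β i ∧ α j ≤ β j := by
  refine ⟨fun h => ⟨fun l _ _ => h l, h i, h j⟩, fun h l => ?_⟩
  by_cases h1 : l = i
  · subst h1; exact h.2.1
  · by_cases h2 : l = j
    · subst h2; exact h.2.2
    · exact h.1 l h1 h2

lemma F_eq (v w : R) {i j : Fin n} (hij : Adj i j) (α β : V n) :
    F v w α β = Fl v (w ^ (∑ l, β l - ∑ l, α l).toNat) (∀ l, l ≠ i → l ≠ j → α l ≤ β l)
      (rest i j α β) (α i) (β i) (α j) (β j) := by
  simp only [F, Fl, le_split i j α β, hh_eq hij]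
  congr

lemma F_left (v w : R) {i j : Fin n} (hij : Adj i j) (α β : V n) :
    F v w (sw i j α) β = Fl v (w ^ (∑ l, β l - ∑ l, α l).toNat) (∀ l, l ≠ i → l ≠ j → α l ≤ β l)
      (rest i j α β) (α j) (β i) (α i) (β j) := by
  rw [F_eq v w hij, sum_sw, rest_left hij, sw_left, sw_right]
  congr 1
  exact propext (forall₃_congr fun l h1 h2 => by rw [sw_other h1 h2])

lemma F_right (v w : R) {i j : Fin n} (hij : Adj i j) (α β : V n) :
    F v w α (sw i j β) = Fl v (w ^ (∑ l, β l - ∑ l, α l).toNat) (∀ l, l ≠ i → l ≠ j → α l ≤ β l)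
      (rest i j α β) (α i) (β j) (α j) (β i) := by
  rw [F_eq v w hij, sum_sw, rest_right hij, sw_left, sw_right]
  congr 1
  exact propext (forall₃_congr fun l h1 h2 => by rw [sw_other h1 h2])

lemma rest_nonneg' {i j : Fin n} (hij : Adj i j) {α β : V n}
    (hP : ∀ l, l ≠ i → l ≠ j → α l ≤ β l) (h1 : α j ≤ β i) (h2 : α i ≤ β j) :
    0 ≤ rest i j α β := by
  rw [← rest_left hij]
  refine rest_nonneg i j ((le_split i j _ _).2 ⟨fun l a b => ?_, by simpa, by simpa⟩)
  rw [sw_other a b]; exact hP l a b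

lemma F1a (v w : R) {i j : Fin n} (hij : Adj i j) {α β : V n} (h1 : α j < α i) (h2 : β i < β j) :
    F v w (sw i j α) β = F v w α (sw i j β) + (1 - v) * F v w α β := by
  rw [F_left v w hij, F_right v w hij, F_eq v w hij α β]
  have hr := rest_nonneg' hij (α := α) (β := β)
  generalize rest i j α β = r at *
  unfold Fl
  by_cases hc : (∀ l, l ≠ i → l ≠ j → α l ≤ β l) ∧ α j ≤ β i ∧ α i ≤ β j
  · have hr' := hr hc.1 hc.2.1 hc.2.2
    obtain ⟨c1, c2, c3⟩ := hc
    rw [if_pos ⟨c1, c2, c3⟩, if_pos ⟨c1, c3, c2⟩]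
    by_cases h3 : α i ≤ β i
    · rw [if_pos ⟨c1, h3, by omega⟩,
        show (r + hp (α i) (β j) (α j) (β i)).toNat = (r + hp (α j) (β i) (α i) (β j)).toNat + 1 by
          unfold hp; omega,
        show (r + hp (α i) (β i) (α j) (β j)).toNat = (r + hp (α j) (β i) (α i) (β j)).toNat by
          unfold hp; omega]
      ring
    · rw [if_neg (fun h => h3 h.2.1),
        show (r + hp (α i) (β j) (α j) (β i)).toNat = (r + hp (α j) (β i) (α i) (β j)).toNat by
          unfold hp; omega]
      ring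
  · rw [if_neg hc, if_neg (fun h => hc ⟨h.1, h.2.2, h.2.1⟩),
      if_neg (fun h => hc ⟨h.1, by omega, by omega⟩)]
    ring

lemma F1b (v w : R) {i j : Fin n} (hij : Adj i j) {α β : V n} (h1 : α j < α i) (h2 : β i = β j) :
    F v w (sw i j α) β = F v w α β := by
  rw [F_left v w hij, F_eq v w hij α β, h2]
  unfold Fl
  by_cases hc : (∀ l, l ≠ i → l ≠ j → α l ≤ β l) ∧ α j ≤ β j ∧ α i ≤ β j
  · obtain ⟨c1, c2, c3⟩ := hc
    rw [if_pos ⟨c1, c2, c3⟩, if_pos ⟨c1, c3, c2⟩,
      show hp (α j) (β j) (α i) (β j) = hp (α i) (β j) (α j) (β j) by unfold hp; omega]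
  · rw [if_neg hc, if_neg (fun h => hc ⟨h.1, h.2.2, h.2.1⟩)]

lemma F1c (v w : R) {i j : Fin n} (hij : Adj i j) {α β : V n} (h1 : α j ≤ α i) (h2 : β j < β i) :
    F v w (sw i j α) β = v * F v w α (sw i j β) := by
  rw [F_left v w hij, F_right v w hij]
  have hr := rest_nonneg' hij (α := α) (β := β)
  generalize rest i j α β = r at *
  unfold Fl
  by_cases hc : (∀ l, l ≠ i → l ≠ j → α l ≤ β l) ∧ α j ≤ β i ∧ α i ≤ β j
  · have hr' := hr hc.1 hc.2.1 hc.2.2
    obtain ⟨c1, c2, c3⟩ := hc
    rw [if_pos ⟨c1, c2, c3⟩, if_pos ⟨c1, c3, c2⟩,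
      show (r + hp (α j) (β i) (α i) (β j)).toNat = (r + hp (α i) (β j) (α j) (β i)).toNat + 1 by
        unfold hp; omega]
    ring
  · rw [if_neg hc, if_neg (fun h => hc ⟨h.1, h.2.2, h.2.1⟩)]
    ring

lemma F_shift (v w : R) (c : ℤ) (α β : V n) : F v w (α + cst c) (β + cst c) = F v w α β := by
  have h1 : hh (α + cst c) (β + cst c) = hh α β := by
    refine sum_congr rfl fun a _ => sum_congr rfl fun b _ => ?_
    split_ifs
    · simp only [hp, Pi.add_apply, cst]; omega
    · rfl
  simp only [F, h1, Pi.add_apply, cst, add_le_add_iff_right, sum_add_distrib,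
    add_sub_add_right_eq_sub]

lemma F_cons0 (v w : R) (α β : V n) : F v w (cons0 α) (cons0 β) = F v w α β := by
  have h1 : hh (cons0 α) (cons0 β) = hh α β := by
    simp [hh, Fin.sum_univ_succ, hp]
  simp only [F, h1, Fin.sum_univ_succ, cons0_zero, cons0_succ, zero_add, Fin.forall_fin_succ,
    le_refl, true_and]

lemma F_raise (v w : R) {α β : V n} {b : ℤ} {j : Fin n} (hβ : ∀ l, b ≤ β l) (hα : Dom α)
    (h1 : α j < b) (h2 : ∀ l, l < j → b ≤ α l) :
    F v w α β = w * v ^ (n - 1 - j) * F v w (e j + α) β := by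
  have e1 : hh α β = hh (e j + α) β + (n - 1 - j : ℕ) := by
    have : ((n - 1 - j : ℕ) : ℤ) =
        ∑ a : Fin n, ∑ b : Fin n, if a < b then (if a = j then 1 else 0) else 0 := by
      rw [Finset.sum_eq_single j (fun a _ ha => by simp [ha]) (by simp)]
      simp only [if_true, sum_boole]
      rw [show filter (fun x => j < x) univ = Ioi j by ext; simp, Fin.card_Ioi]
    rw [this, hh, hh, ← sum_add_distrib]
    refine sum_congr rfl fun a _ => ?_
    rw [← sum_add_distrib]
    refine sum_congr rfl fun c _ => ?_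
    by_cases hac : a < c
    · simp only [hac, if_true, Pi.add_apply, e_apply, hp]
      have := hβ a
      have := hβ c
      have := hα.anti a c hac.le
      by_cases ha : a = j
      · subst ha
        simp only [if_true, hac.ne', if_false]; omega
      · by_cases hc : c = j
        · subst hc
          have := h2 a hac
          simp only [if_true, ha, if_false]; omega
        · simp only [ha, hc, if_false]; omega
    · simp [hac]
  have e2 : (∀ l, α l ≤ β l) ↔ ∀ l, (e j + α) l ≤ β l := by
    refine forall_congr' fun l => ?_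
    simp only [Pi.add_apply, e_apply]
    split_ifs with h
    · subst h; have := hβ l; omega
    · simp
  unfold F
  by_cases h : ∀ l, α l ≤ β l
  · have h' := e2.1 h
    rw [if_pos h, if_pos h']
    have n1 := hh_nonneg h'
    have n2 : ∑ l, (e j + α) l ≤ ∑ l, β l := sum_le_sum fun l _ => h' l
    have n3 : ∑ l, (e j + α) l = 1 + ∑ l, α l := by
      simp [sum_add_distrib, e_apply]
    rw [show (hh α β).toNat = (hh (e j + α) β).toNat + (n - 1 - j) by omega,
      show (∑ l, β l - ∑ l, α l).toNat = (∑ l, β l - ∑ l, (e j + α) l).toNat + 1 by omega]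
    ring
  · rw [if_neg h, if_neg (fun h' => h (e2.2 h'))]; ring

section main
variable {v w : R} (hv : IsNilpotent v) (hw : IsNilpotent w)
include hv hw

lemma stepA (ih : ∀ α β : V n, ph v w (Ep v α * Em v β) = F v w α (-β)) (β : V (n + 1))
    (h0 : ∀ l, β l ≤ 0) (h1 : ∃ l, β l = 0) (α : V (n + 1)) (hα : ∀ l, 0 ≤ α l) :
    ph v w (Ep v α * Em v β) = F v w α (-β) := by
  induction β using asc_ind generalizing α with
  | h0 β hd =>
    obtain ⟨l, hl⟩ := h1
    have hz : β 0 = 0 := le_antisymm (h0 0) (hl ▸ hd.anti 0 l (Fin.zero_le _))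
    have eβ : β = cons0 fun i => β i.succ := by
      funext k; refine Fin.cases ?_ (fun i => rfl) k; simpa using hz
    have hE : Em v β = rs (Em v fun i => β i.succ) := by
      rw [rs_Em v fun i => h0 _, ← eβ]
    by_cases ha : α 0 = 0
    · have eα : α = cons0 fun i => α i.succ := by
        funext k; refine Fin.cases ?_ (fun i => rfl) k; simpa using ha
      have := Ep_cons0 v (μ := fun i => α i.succ) fun i => hα _
      rw [← eα] at this
      have h2 := ph_pos hv hw (mul_Ge (d'' := 1) (by norm_num) this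
        (rs_p (Em v fun i => β i.succ)))
      rw [sub_mul, map_sub, sub_eq_zero, ← map_mul, ph_rs hv hw, ih] at h2
      rw [hE, h2, ← F_cons0, cons0_neg, ← eα, ← eβ]
    · have hpos : 1 ≤ α 0 := by have := hα 0; omega
      have h3 : Ep v α ∈ supp R (Ge (cw 0) 1) := by
        refine supported_mono ?_ (Ep_first_pos v 1 ⟨hα, fun l hl => ?_⟩)
        · exact fun ν hν => hν.2 0 (by simp)
        · rwa [show l = 0 from Fin.ext (by simpa using hl)]
      rw [hE, ph_pos hv hw (mul_Ge (d'' := 1) (by norm_num) h3 (rs_p _)), F, if_neg]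
      intro h
      have := h 0
      simp only [Pi.neg_apply] at this
      omega
  | h1 β i j hij hlt ih' =>
    have ih2 := ih' (fun l => h0 _) (by
      obtain ⟨l, hl⟩ := h1
      exact ⟨Equiv.swap i j l, by simpa [sw] using hl⟩)
    rw [Em_asc v hij hlt, ← ph_B hv hw hij]
    have hb : (-β) j < (-β) i := by simpa using hlt
    rcases lt_trichotomy (α i) (α j) with h | h | h
    · rw [Ep_asc v hij h, B_A v hij.ne, mul_assoc, ph_C_mul, ih2 (sw i j α) fun l => hα _, ← sw_neg,
        ← F1c v w hij (by simpa using h.le) hb, sw_sw]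
    · rw [B_apply, Ep_tie v hij h, show Ep v α + (C v - 1) * Ep v α = C v * Ep v α by ring,
        mul_assoc, ph_C_mul, ih2 _ hα, ← sw_neg, ← F1c v w hij h.ge hb, sw_eq_self h]
    · rw [B_apply, Ep_desc v hij h, add_mul, map_add, ← map_one C, ← map_sub, mul_assoc, ph_C_mul,
        ih2 _ hα, ih2 (sw i j α) fun l => hα _, ← sw_neg, F1a v w hij h (by simpa using hb), sw_sw]
      ring

lemma stepB (ih : ∀ α β : V n, ph v w (Ep v α * Em v β) = F v w α (-β)) (β : V (n + 1))
    (α : V (n + 1)) (hα : Dom α) : ph v w (Ep v α * Em v β) = F v w α (-β) := by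
  obtain ⟨l0, -, hl0⟩ := exists_max_image univ β univ_nonempty
  have hβ : ∀ l, β l ≤ β l0 := fun l => hl0 l (mem_univ _)
  induction hN : ∑ l, (-β l0 - α l).toNat using Nat.strong_induction_on generalizing α with
  | _ N ihN =>
    by_cases h : ∀ l, -β l0 ≤ α l
    · have := stepA hv hw ih (β + cst (-β l0)) (fun l => by have := hβ l; simp [cst]; omega)
        ⟨l0, by simp [cst]⟩ (α + cst (β l0)) (fun l => by have := h l; simp [cst]; omega)
      rw [Ep_shift, Em_shift, mul_mul_mul_comm, ← mon_add,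
        show (cst (β l0) + cst (-β l0) : V (n + 1)) = 0 by funext; simp [cst], mon_zero, one_mul,
        show -(β + cst (-β l0)) = -β + cst (β l0) by funext; simp [cst]; ring, F_shift] at this
      exact this
    · push Not at h
      obtain ⟨j, hj, hmin⟩ := exists_min_image (univ.filter fun l => α l < -β l0) id
        (by obtain ⟨l, hl⟩ := h; exact ⟨l, by simpa using hl⟩)
      have hj' : α j < -β l0 := by simpa using hj
      have hmin' : ∀ l, l < j → -β l0 ≤ α l := by
        intro l hl
        by_contra hc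
        exact absurd (hmin l (by simpa using hc)) (not_le.2 hl)
      have hd : Dom (e j + α) := by
        intro a b hab
        have := hα a b hab
        simp only [Pi.add_apply, e_apply]
        split_ifs with h1 h2 h3
        · omega
        · subst h1
          have := hmin' a (by unfold Adj at hab; rw [Fin.lt_def]; omega)
          omega
        · omega
        · omega
      have hlt : ∑ l, (-β l0 - (e j + α) l).toNat < N := by
        rw [← hN]
        refine sum_lt_sum (fun l _ => ?_) ⟨j, mem_univ _, ?_⟩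
        · simp only [Pi.add_apply, e_apply]; split_ifs <;> omega
        · simp only [Pi.add_apply, e_apply, if_true]; omega
      rw [F_raise v w (b := -β l0) (fun l => by simpa using hβ l) hα hj' hmin',
        ← ihN _ hlt _ hd rfl, Ep_dom v hα, Ep_dom v hd, mon_add, mul_assoc (mon (e j))]
      refine raise hv hw (mul_mem_supp (s := {α}) ?_ (mon_mem rfl)
        (Em_mem v (fun i j _ => seg_le (β l0) i j) hβ))
      rintro _ rfl ν hν
      refine ⟨fun k hk => ?_, ?_⟩
      · have := hν k
        have := hα.anti j k hk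
        simp only [Pi.add_apply]; omega
      · have := hν j
        simp only [Pi.add_apply]; omega

theorem pieri (α β : V n) : ph v w (Ep v α * Em v β) = F v w α (-β) := by
  induction n with
  | zero =>
    have h1 : α = 0 := Subsingleton.elim _ _
    have h2 : β = 0 := Subsingleton.elim _ _
    have h3 : Dom (0 : V 0) := fun i => i.elim0
    rw [h1, h2, Ep_dom v h3, Em_dom v h3, mon_zero]
    simp [ph_apply, Om, Del, F, hh]
  | succ n ih =>
    induction α using asc_ind generalizing β with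
    | h0 α hd => exact stepB hv hw ih β α hd
    | h1 α i j hij hlt ih' =>
      have ha : sw i j α j < sw i j α i := by simpa using hlt
      have hA : ∀ f : L R (n + 1), A v i j f = B v i j f + C (1 - v) * f := fun f => by
        rw [B_apply, map_sub, map_one]; ring
      rw [Ep_asc v hij hlt, ph_A hv hw hij]
      rcases lt_trichotomy (β i) (β j) with h | h | h
      · rw [Em_asc v hij h, A_B v hij.ne, mul_left_comm, ph_C_mul, ih', ← sw_neg,
          ← F1c v w hij ha.le (by simpa using h), sw_sw]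
      · rw [hA, Em_tie v hij h, ← add_mul, ← map_add, add_sub_cancel, map_one, one_mul, ih',
          ← F1b v w hij ha (by simpa using h), sw_sw]
      · rw [hA, Em_desc v hij h, mul_add, map_add, mul_left_comm, ph_C_mul, ih', ih', ← sw_neg,
          ← F1a v w hij ha (by simpa using h), sw_sw]

end main

end Pool.Agent.Lib.MP_a77f20_co
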